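import Pool.Agent.Helper54_HM.FarB

/-! FAR: module ANG. -/

set_option autoImplicit false

namespace Pool.Agent.HM.H54F

open Complex Set Topology Pool.Agent.HM Pool.Agent.HM.FAR

noncomputable section

lemma csm {f : ℝ → ℂ} {s : Set ℝ} (r : ℝ) (hf : ContinuousOn f s) :
    ContinuousOn (fun t => r • f t) s := (continuousOn_const (c := r)).smul hf

lemma cad {f g : ℝ → ℂ} {s : Set ℝ} (hf : ContinuousOn f s) (hg : ContinuousOn g s) :
    ContinuousOn (fun t => f t + g t) s := hf.add hg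

lemma csb {f g : ℝ → ℂ} {s : Set ℝ} (hf : ContinuousOn f s) (hg : ContinuousOn g s) :
    ContinuousOn (fun t => f t - g t) s := hf.sub hg

theorem ang (hP : PolarStmt) (hB : BridgeStmt) : AngStmt := by
  intro m hm σ hσ T X hRun hReg
  set a := m 0 with ha
  set b := m 1 with hb
  set c := m 2 with hc
  -- the curves
  set x : ℝ → ℂ := fun t => (X t).1 with hx
  set y : ℝ → ℂ := fun t => (X t).2.1 with hy
  set u : ℝ → ℂ := fun t => (X t).2.2.1 with hu
  set v : ℝ → ℂ := fun t => (X t).2.2.2 with hv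
  have cX := hRun.cont
  have cx : ContinuousOn x (Icc 0 T) := (continuous_fst.comp cX).continuousOn
  have cy : ContinuousOn y (Icc 0 T) := (continuous_fst.comp (continuous_snd.comp cX)).continuousOn
  have cu : ContinuousOn u (Icc 0 T) :=
    (continuous_fst.comp (continuous_snd.comp (continuous_snd.comp cX))).continuousOn
  have cv : ContinuousOn v (Icc 0 T) :=
    (continuous_snd.comp (continuous_snd.comp (continuous_snd.comp cX))).continuousOn
  have hN : ∀ t ∈ Icc (0 : ℝ) T, Num a b c (x t) (y t) (u t) (v t) :=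
    fun t ht => num hB hm (hReg t ht)
  have hK := fun t ht => kep hB hm hRun hReg (t := t) ht
  set f : ℝ → ℂ := fun t => Helper35TB.fF a b c (x t) (y t) with hf
  set g : ℝ → ℂ := fun t => Helper35TB.gF a b c (x t) (y t) with hg
  have cKy : ContinuousOn (fun t => Helper35TB.K (y t)) (Icc 0 T) :=
    contK cy (fun t ht => (hN t ht).y0)
  have cKp : ContinuousOn (fun t => Helper35TB.K (y t - (a / (a + b)) • x t)) (Icc 0 T) :=
    contK (csb cy (csm _ cx)) (fun t ht => (hN t ht).np)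
  have cKq : ContinuousOn (fun t => Helper35TB.K (y t + (b / (a + b)) • x t)) (Icc 0 T) :=
    contK (cad cy (csm _ cx)) (fun t ht => (hN t ht).nq)
  have cf : ContinuousOn f (Icc 0 T) := csm c (csb cKp cKq)
  have cg : ContinuousOn g (Icc 0 T) :=
    csb (csm _ cKy) (csm _ (cad (csm _ cKq) (csm _ cKp)))
  set A : ℝ → ℂ := fun t => Helper35TB.Lap (a + b) (x t) (u t) with hA
  set O : ℝ → ℂ := fun t => Helper35TB.Lap (a + b + c) (y t) (v t) with hO
  set A' : ℝ → ℂ := fun t => Apr (a + b) (x t) (u t) (f t) with hA'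
  set O' : ℝ → ℂ := fun t => Apr (a + b + c) (y t) (v t) (g t) with hO'
  have cA : ContinuousOn A (Icc 0 T) := contLap cx cu (fun t ht => (hN t ht).x0)
  have cO : ContinuousOn O (Icc 0 T) := contLap cy cv (fun t ht => (hN t ht).y0)
  have cA' : ContinuousOn A' (Icc 0 T) := contApr cx cu cf
  have cO' : ContinuousOn O' (Icc 0 T) := contApr cy cv cg
  have dA : ∀ t ∈ Icc (0 : ℝ) T, HasDerivAt A (A' t) t := by
    intro t ht
    have h0 : a + b ≠ 0 := by have := (hN t ht).B.m1; linarith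
    have := (hK t ht).1.lap (hN t ht).x0 h0
    rw [← apr_eq] at this
    exact this
  have dO : ∀ t ∈ Icc (0 : ℝ) T, HasDerivAt O (O' t) t := by
    intro t ht
    have h0 : a + b + c ≠ 0 := by have := (hN t ht).B.M1; linarith
    have := (hK t ht).2.lap (hN t ht).y0 h0
    rw [← apr_eq] at this
    exact this
  set F : ℝ → ℂ := fun t => A t * (starRingEnd ℂ) (-O t) with hF
  set F' : ℝ → ℂ := fun t => A' t * (starRingEnd ℂ) (-O t) + A t * (starRingEnd ℂ) (-O' t) with hF'
  have dF : ∀ t ∈ Icc (0 : ℝ) T, HasDerivAt F (F' t) t := by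
    intro t ht
    exact (dA t ht).mul (hasDerivAt_conj (dO t ht).neg)
  have cF' : ContinuousOn F' (Icc 0 T) := by
    apply ContinuousOn.add
    · exact cA'.mul (Complex.continuous_conj.comp_continuousOn cO.neg)
    · exact cA.mul (Complex.continuous_conj.comp_continuousOn cO'.neg)
  have hF0 : ∀ t ∈ Icc (0 : ℝ) T, F t ≠ 0 := by
    intro t ht
    exact mul_ne_zero (hN t ht).lapb ((map_ne_zero _).mpr (neg_ne_zero.mpr (hN t ht).lapo))
  obtain ⟨θ, hθ0, hθd, hθF⟩ := hP F F' T hRun.T0 dF cF' hF0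
  refine ⟨θ, hθ0, ?_, ?_⟩
  · intro t ht
    have h1 := hθd t ht
    have e1 : (A' t / A t).im = omg (a + b) (x t) (u t) (f t) :=
      im_apr_div (a + b) (x t) (u t) (f t)
    have e2 : (O' t / O t).im = omg (a + b + c) (y t) (v t) (g t) :=
      im_apr_div (a + b + c) (y t) (v t) (g t)
    have e3 : (F' t / F t).im = (A' t / A t).im - (-O' t / -O t).im :=
      im_log (A t) (-O t) (A' t) (-O' t) (hN t ht).lapb (neg_ne_zero.mpr (hN t ht).lapo)
    rw [neg_div_neg_eq, e1, e2] at e3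
    have h2 : (F' t / F t).im = omr m (X t) := e3
    rw [h2] at h1
    exact h1
  · intro t ht hsm
    have h0 : (0 : ℝ) ∈ Icc (0 : ℝ) T := ⟨le_refl _, hRun.T0⟩
    have hgF : ∀ s ∈ Icc (0 : ℝ) T, gg m (X s) = gref + arg (F s * exp (-(I * gref))) := by
      intro s hs
      obtain ⟨-, -, -, -, -, -, -, -, hl, ho, -⟩ := hB m hm (X s) (hN s hs).x0 (hN s hs).y0
      rw [gg, hl, ho]
    have hst := hRun.start
    have hg0 : |gg m (X 0) - gref| ≤ 0.0045 := hst.2.2.2.2.2.2.2.2.1
    have e0 := hgF 0 h0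
    have et := hgF t ht
    set α : ℝ := arg (F 0 * exp (-(I * gref))) with hα
    have hα' : |α| ≤ 0.0045 := by
      have : gg m (X 0) - gref = α := by rw [e0]; ring
      rw [← this]; exact hg0
    have hn : F 0 * exp (-(I * gref)) = ((‖F 0‖ : ℝ) : ℂ) * exp (I * α) := by
      have h1 := Complex.norm_mul_exp_arg_mul_I (F 0 * exp (-(I * gref)))
      have h2 : ‖exp (-(I * (gref : ℂ)))‖ = 1 := by
        have : -(I * (gref : ℂ)) = ((-gref : ℝ) : ℂ) * I := by push_cast; ring
        rw [this, Complex.norm_exp_ofReal_mul_I]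
      rw [norm_mul, h2, mul_one] at h1
      rw [← h1, mul_comm I (α : ℂ)]
    have hn0 : 0 < ‖F 0‖ := norm_pos_iff.mpr (hF0 0 h0)
    have hnt : 0 < ‖F t‖ := norm_pos_iff.mpr (hF0 t ht)
    have h3 : F t * exp (-(I * gref)) = ((‖F t‖ : ℝ) : ℂ)
        * (cos ((θ t + α : ℝ) : ℂ) + sin ((θ t + α : ℝ) : ℂ) * I) := by
      have hFt := hθF t ht
      have e1 : ((θ t + α : ℝ) : ℂ) * I = I * θ t + I * α := by push_cast; ring
      have e2 : ((‖F t‖ / ‖F 0‖ : ℝ) : ℂ) * ((‖F 0‖ : ℝ) : ℂ) = ((‖F t‖ : ℝ) : ℂ) := by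
        rw [← Complex.ofReal_mul, div_mul_cancel₀ _ hn0.ne']
      calc F t * exp (-(I * gref))
          = (((‖F t‖ / ‖F 0‖ : ℝ) : ℂ) * exp (I * θ t) * F 0) * exp (-(I * gref)) := by
            rw [← hFt]
        _ = ((‖F t‖ / ‖F 0‖ : ℝ) : ℂ) * exp (I * θ t) * (F 0 * exp (-(I * gref))) := by ring
        _ = ((‖F t‖ / ‖F 0‖ : ℝ) : ℂ) * exp (I * θ t) * (((‖F 0‖ : ℝ) : ℂ) * exp (I * α)) := by
            rw [hn]
        _ = (((‖F t‖ / ‖F 0‖ : ℝ) : ℂ) * ((‖F 0‖ : ℝ) : ℂ)) * (exp (I * θ t) * exp (I * α)) := by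
            ring
        _ = ((‖F t‖ : ℝ) : ℂ) * (cos ((θ t + α : ℝ) : ℂ) + sin ((θ t + α : ℝ) : ℂ) * I) := by
            rw [e2, ← Complex.exp_add, ← e1, Complex.exp_mul_I]
    have hpi := Real.pi_gt_three
    have habs := abs_le.mp hsm
    have habs' := abs_le.mp hα'
    have h4 : arg (F t * exp (-(I * gref))) = θ t + α := by
      rw [h3]
      apply Complex.arg_mul_cos_add_sin_mul_I hnt
      constructor
      · norm_num at habs habs' ⊢; linarith
      · norm_num at habs habs' ⊢; linarith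
    rw [et, e0, h4]
    ring

end

end Pool.Agent.HM.H54F

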