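import Pool.Agent.Helper54_HM.FarB

/-! FAR: module TURN. -/

set_option autoImplicit false

namespace Pool.Agent.HM.H54F

open Complex Set Topology Pool.Agent.HM Pool.Agent.HM.FAR

noncomputable section

lemma im_div_cr (w z : ℂ) : (w / z).im = Helper35TB.cr z w / ‖z‖ ^ 2 := by
  rw [Complex.div_im, Complex.normSq_eq_norm_sq, Helper35TB.cr]
  ring

/-- a continuous function with values in the multiples of 2 pi which vanishes at 0 -/
lemma const_zero {h : ℝ → ℝ} {T : ℝ} (hT : 0 ≤ T) (hc : ContinuousOn h (Icc 0 T)) (h0 : h 0 = 0)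
    (hcos : ∀ t ∈ Icc (0 : ℝ) T, Real.cos (h t) = 1) : h T = 0 := by
  have hTm : T ∈ Icc (0 : ℝ) T := ⟨hT, le_refl _⟩
  rcases le_or_gt |h T| Real.pi with hle | hgt
  · have hpi := Real.pi_pos
    have h1 := abs_le.mp hle
    exact (Real.cos_eq_one_iff_of_lt_of_lt (by linarith) (by linarith)).mp (hcos T hTm)
  · exfalso
    have hca : ContinuousOn (fun t => |h t|) (Icc 0 T) := hc.abs
    have hiv := intermediate_value_Icc hT hca
    have hmem : Real.pi ∈ Icc (|h 0|) (|h T|) := by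
      rw [h0, abs_zero]
      exact ⟨Real.pi_pos.le, hgt.le⟩
    obtain ⟨s, hs, hs2⟩ := hiv hmem
    simp only at hs2
    have h3 := hcos s hs
    rw [← Real.cos_abs, hs2, Real.cos_pi] at h3
    norm_num at h3

theorem turn (hP : PolarStmt) (hB : BridgeStmt) : TurnStmt := by
  intro m hm σ hσ T X hRun hReg hL θ cθ hθ
  set a := m 0 with ha
  set b := m 1 with hb
  set c := m 2 with hc
  set x : ℝ → ℂ := fun t => (X t).1 with hx
  set y : ℝ → ℂ := fun t => (X t).2.1 with hy
  set u : ℝ → ℂ := fun t => (X t).2.2.1 with hu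
  set v : ℝ → ℂ := fun t => (X t).2.2.2 with hv
  have cX := hRun.cont
  have cx : ContinuousOn x (Icc 0 T) := (continuous_fst.comp cX).continuousOn
  have cy : ContinuousOn y (Icc 0 T) := (continuous_fst.comp (continuous_snd.comp cX)).continuousOn
  have cu : ContinuousOn u (Icc 0 T) :=
    (continuous_fst.comp (continuous_snd.comp (continuous_snd.comp cX))).continuousOn
  have cv : ContinuousOn v (Icc 0 T) :=
    (continuous_snd.comp (continuous_snd.comp (continuous_snd.comp cX))).continuousOn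
  have hN : ∀ t ∈ Icc (0 : ℝ) T, Num a b c (x t) (y t) (u t) (v t) :=
    fun t ht => num hB hm (hReg t ht)
  have hK := fun t ht => kep hB hm hRun hReg (t := t) ht
  set F : ℝ → ℂ := fun t => x t * (starRingEnd ℂ) (y t) with hF
  set F' : ℝ → ℂ := fun t => u t * (starRingEnd ℂ) (y t) + x t * (starRingEnd ℂ) (v t) with hF'
  have dF : ∀ t ∈ Icc (0 : ℝ) T, HasDerivAt F (F' t) t := by
    intro t ht
    exact (hK t ht).1.hz.mul (hasDerivAt_conj (hK t ht).2.hz)
  have cF' : ContinuousOn F' (Icc 0 T) := by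
    apply ContinuousOn.add
    · exact cu.mul (Complex.continuous_conj.comp_continuousOn cy)
    · exact cx.mul (Complex.continuous_conj.comp_continuousOn cv)
  have hF0 : ∀ t ∈ Icc (0 : ℝ) T, F t ≠ 0 := by
    intro t ht
    exact mul_ne_zero (hN t ht).x0 ((map_ne_zero _).mpr (hN t ht).y0)
  obtain ⟨ψ, hψ0, hψd, hψF⟩ := hP F F' T hRun.T0 dF cF' hF0
  have h0 : (0 : ℝ) ∈ Icc (0 : ℝ) T := ⟨le_refl _, hRun.T0⟩
  have hTm : T ∈ Icc (0 : ℝ) T := ⟨hRun.T0, le_refl _⟩
  -- F t = |F t| exp (i θ t)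
  have hFθ : ∀ t ∈ Icc (0 : ℝ) T, F t = ((‖F t‖ : ℝ) : ℂ) * exp (I * θ t) := by
    intro t ht
    have h1 := hθ t ht
    have hy0 : y t ≠ 0 := (hN t ht).y0
    have hyn : ((‖y t‖ : ℝ) : ℂ) ≠ 0 := by exact_mod_cast norm_ne_zero_iff.mpr hy0
    have h2 : F t = (x t / y t) * ((‖y t‖ ^ 2 : ℝ) : ℂ) := by
      have h3 : y t * (starRingEnd ℂ) (y t) = ((‖y t‖ ^ 2 : ℝ) : ℂ) := by
        rw [Complex.mul_conj, Complex.normSq_eq_norm_sq]
      rw [← h3, hF]
      field_simp
    have h4 : ‖F t‖ = ‖x t / y t‖ * ‖y t‖ ^ 2 := by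
      rw [h2, norm_mul, Complex.norm_real, Real.norm_of_nonneg (by positivity)]
    rw [h4, h2]
    have h5 : x t / y t = ((‖x t / y t‖ : ℝ) : ℂ) * exp (I * θ t) := h1
    calc x t / y t * ((‖y t‖ ^ 2 : ℝ) : ℂ)
        = (((‖x t / y t‖ : ℝ) : ℂ) * exp (I * θ t)) * ((‖y t‖ ^ 2 : ℝ) : ℂ) := by rw [← h5]
      _ = _ := by push_cast; ring
  have cψ : ContinuousOn ψ (Icc 0 T) := fun t ht => (hψd t ht).continuousWithinAt
  have hzero : θ T - θ 0 - ψ T = 0 := by
    refine const_zero (h := fun t => θ t - θ 0 - ψ t) hRun.T0 ?_ ?_ ?_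
    · exact (cθ.sub continuousOn_const).sub cψ
    · simp [hψ0]
    · intro t ht
      have h1 := hFθ t ht
      have h2 := hFθ 0 h0
      have h3 := hψF t ht
      have hn0 : ((‖F 0‖ : ℝ) : ℂ) ≠ 0 := by exact_mod_cast norm_ne_zero_iff.mpr (hF0 0 h0)
      have hnt : ((‖F t‖ : ℝ) : ℂ) ≠ 0 := by exact_mod_cast norm_ne_zero_iff.mpr (hF0 t ht)
      have h4 : ((‖F t‖ : ℝ) : ℂ) * exp (I * θ t)
          = ((‖F t‖ : ℝ) : ℂ) * (exp (I * ψ t) * exp (I * θ 0)) := by
        rw [← h1]
        calc F t = ((‖F t‖ / ‖F 0‖ : ℝ) : ℂ) * exp (I * ψ t) * F 0 := h3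
          _ = ((‖F t‖ / ‖F 0‖ : ℝ) : ℂ) * exp (I * ψ t) * (((‖F 0‖ : ℝ) : ℂ) * exp (I * θ 0)) := by
              rw [← h2]
          _ = _ := by
              push_cast
              field_simp
      have h5 := mul_left_cancel₀ hnt h4
      have h6 : exp (((θ t - θ 0 - ψ t : ℝ) : ℂ) * I) = 1 := by
        have e1 : ((θ t - θ 0 - ψ t : ℝ) : ℂ) * I = I * θ t - (I * ψ t + I * θ 0) := by
          push_cast; ring
        rw [e1, Complex.exp_sub, Complex.exp_add, h5]
        exact div_self (mul_ne_zero (Complex.exp_ne_zero _) (Complex.exp_ne_zero _))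
      have h7 := congrArg Complex.re h6
      rw [Complex.exp_ofReal_mul_I_re] at h7
      simpa using h7
  have hdiff : θ T - θ 0 = ψ T := by linarith
  -- derivative bounds
  have hσ2 : σ * σ = 1 := by rcases hσ with h | h <;> rw [h] <;> norm_num
  have hder : ∀ t ∈ Icc (0 : ℝ) T, 0.08 ≤ σ * (F' t / F t).im ∧ σ * (F' t / F t).im ≤ 1e5 := by
    intro t ht
    have hn := hN t ht
    have hr := hReg t ht
    obtain ⟨-, hcr, -⟩ := hB m hm (X t) hn.x0 hn.y0
    have hLt := hL t ht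
    rw [hcr] at hLt
    have e1 : (F' t / F t).im = (u t / x t).im - (v t / y t).im :=
      im_log (x t) (y t) (u t) (v t) hn.x0 hn.y0
    rw [e1, im_div_cr, im_div_cr]
    have hH := hn.H
    set L := Helper35TB.cr (x t) (u t) with hLd
    set H := Helper35TB.cr (y t) (v t) with hHd
    have hL1 : 0.088 ≤ σ * L := hLt.1
    have hL2 : σ * L ≤ 0.101 := hLt.2
    have hH' : Helper35TB.muo a b c * (-(σ * H)) = Helper35TB.mub a b * (σ * L) := by
      linear_combination (-σ) * hH
    have hm1 := hn.mub1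
    have hm2 := hn.mub2
    have ho1 := hn.muo1
    have ho2 := hn.muo2
    have hH1 : 0 ≤ -(σ * H) := by
      by_contra hcon
      push Not at hcon
      nlinarith
    have hH2 : -(σ * H) ≤ 0.1 := by
      by_contra hcon
      push Not at hcon
      nlinarith
    have hx1 : 0.0016 ≤ ‖x t‖ := hr.r1
    have hx2 : ‖x t‖ ≤ 1.002 := hr.r2
    have hy1 : 23.3 ≤ ‖y t‖ := hr.R1
    have e2 : σ * (L / ‖x t‖ ^ 2 - H / ‖y t‖ ^ 2)
        = (σ * L) / ‖x t‖ ^ 2 + (-(σ * H)) / ‖y t‖ ^ 2 := by ring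
    rw [e2]
    have hxp : 0 < ‖x t‖ := by linarith
    have hyp : 0 < ‖y t‖ := by linarith
    have hx3 : ‖x t‖ ^ 2 ≤ 1.002 ^ 2 := pow_le_pow_left₀ hxp.le hx2 2
    have hx4 : 0.0016 ^ 2 ≤ ‖x t‖ ^ 2 := pow_le_pow_left₀ (by norm_num) hx1 2
    have hy2 : (23 : ℝ) ^ 2 ≤ ‖y t‖ ^ 2 := pow_le_pow_left₀ (by norm_num) (by linarith) 2
    have b1 : 0.08 ≤ σ * L / ‖x t‖ ^ 2 := by
      rw [le_div_iff₀ (by positivity)]
      nlinarith
    have b2 : σ * L / ‖x t‖ ^ 2 ≤ 4e4 := by
      rw [div_le_iff₀ (by positivity)]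
      nlinarith
    have b3 : 0 ≤ (-(σ * H)) / ‖y t‖ ^ 2 := div_nonneg hH1 (by positivity)
    have b4 : (-(σ * H)) / ‖y t‖ ^ 2 ≤ 1 := by
      rw [div_le_iff₀ (by positivity)]
      nlinarith
    constructor
    · linarith
    · norm_num at b2 ⊢
      linarith
  rw [hdiff]
  constructor
  · have hmono : MonotoneOn (fun t => σ * ψ t - 0.08 * t) (Icc 0 T) := by
      refine monotoneOn_of_hasDerivWithinAt_nonneg (convex_Icc 0 T) ?_
        (f' := fun t => σ * (F' t / F t).im - 0.08) ?_ ?_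
      · exact (continuousOn_const.mul cψ).sub (continuousOn_const.mul continuousOn_id)
      · intro t ht
        have h1 := (hψd t (interior_subset ht)).mono interior_subset
        have h2 : HasDerivWithinAt (fun s => σ * ψ s - 0.08 * s) (σ * (F' t / F t).im - 0.08 * 1)
            (interior (Icc 0 T)) t :=
          (h1.const_mul σ).sub ((hasDerivWithinAt_id t (interior (Icc 0 T))).const_mul 0.08)
        rwa [mul_one] at h2
      · intro t ht
        have := (hder t (interior_subset ht)).1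
        linarith
    have h1 := hmono h0 hTm hRun.T0
    simp only [hψ0] at h1
    linarith
  · have hanti : AntitoneOn (fun t => σ * ψ t - 1e5 * t) (Icc 0 T) := by
      refine antitoneOn_of_hasDerivWithinAt_nonpos (convex_Icc 0 T) ?_
        (f' := fun t => σ * (F' t / F t).im - 1e5) ?_ ?_
      · exact (continuousOn_const.mul cψ).sub (continuousOn_const.mul continuousOn_id)
      · intro t ht
        have h1 := (hψd t (interior_subset ht)).mono interior_subset
        have h2 : HasDerivWithinAt (fun s => σ * ψ s - 1e5 * s) (σ * (F' t / F t).im - 1e5 * 1)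
            (interior (Icc 0 T)) t :=
          (h1.const_mul σ).sub ((hasDerivWithinAt_id t (interior (Icc 0 T))).const_mul 1e5)
        rwa [mul_one] at h2
      · intro t ht
        have := (hder t (interior_subset ht)).2
        linarith
    have h1 := hanti h0 hTm hRun.T0
    simp only [hψ0] at h1
    linarith

end

end Pool.Agent.HM.H54F

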