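import Pool.Agent.Helper54_HM.LcAlg

/-!
# Module NEWT: Levi-Civita families are Newtonian families, up to a change of time
-/

set_option autoImplicit false

namespace Pool.Agent.HM.H54

open Complex Set Topology MeasureTheory Filter

noncomputable section

section timechange

set_option linter.unusedSectionVars false

variable {E : Type} [TopologicalSpace E] [FirstCountableTopology E] [LocallyCompactSpace E]

/-- the time function -/
def TT (h : E → ℝ → ℝ) (a : E) (s : ℝ) : ℝ := ∫ σ in (0 : ℝ)..s, h a σ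

theorem TT_cont {h : E → ℝ → ℝ} (hc : Continuous fun p : E × ℝ => h p.1 p.2) :
    Continuous fun p : E × ℝ => TT h p.1 p.2 := by
  unfold TT
  have : Continuous fun q : (E × ℝ) × ℝ => h q.1.1 q.2 :=
    hc.comp (by fun_prop : Continuous fun q : (E × ℝ) × ℝ => (q.1.1, q.2))
  exact intervalIntegral.continuous_parametric_intervalIntegral_of_continuous
    (f := fun (p : E × ℝ) σ => h p.1 σ) this continuous_snd

theorem TT_deriv {h : E → ℝ → ℝ} (hc : Continuous fun p : E × ℝ => h p.1 p.2) (a : E) (s : ℝ) :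
    HasDerivAt (TT h a) (h a s) s := by
  have h1 : Continuous (h a) := hc.comp (by fun_prop : Continuous fun σ : ℝ => (a, σ))
  exact (h1.integral_hasStrictDerivAt 0 s).hasDerivAt

theorem TT_zero (h : E → ℝ → ℝ) (a : E) : TT h a 0 = 0 := by simp [TT]

theorem TT_mono {h : E → ℝ → ℝ} (hc : Continuous fun p : E × ℝ => h p.1 p.2)
    (hp : ∀ a s, 0 < h a s) (a : E) : StrictMono (TT h a) :=
  strictMono_of_hasDerivAt_pos (fun s => TT_deriv hc a s) fun s => hp a s

theorem TT_surj {h : E → ℝ → ℝ} (hc : Continuous fun p : E × ℝ => h p.1 p.2)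
    (hb : ∀ a, ∃ c > 0, ∀ s, c ≤ h a s) (a : E) : Function.Surjective (TT h a) := by
  obtain ⟨c, hc0, hcb⟩ := hb a
  have hcont : Continuous (TT h a) := (TT_cont hc).comp (by fun_prop : Continuous fun s : ℝ => (a, s))
  have hm : Monotone fun s => TT h a s - c * s := by
    refine monotone_of_deriv_nonneg ?_ ?_
    · intro s
      exact ((TT_deriv hc a s).sub ((hasDerivAt_id s).const_mul c)).differentiableAt
    · intro s
      have hd : HasDerivAt (fun s => TT h a s - c * s) (h a s - c * 1) s :=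
        (TT_deriv hc a s).sub ((hasDerivAt_id s).const_mul c)
      rw [hd.deriv]
      have := hcb s
      linarith
  refine hcont.surjective ?_ ?_
  · refine tendsto_atTop_mono' atTop ?_ (tendsto_id.const_mul_atTop hc0)
    filter_upwards [eventually_ge_atTop (0 : ℝ)] with s hs
    have := hm hs
    simp only [TT_zero] at this
    simp only [id]
    linarith
  · refine tendsto_atBot_mono' atBot ?_ (tendsto_id.const_mul_atBot hc0)
    filter_upwards [eventually_le_atBot (0 : ℝ)] with s hs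
    have := hm hs
    simp only [TT_zero] at this
    simp only [id]
    linarith

/-- the inverse time function -/
theorem exists_inv {h : E → ℝ → ℝ} (hc : Continuous fun p : E × ℝ => h p.1 p.2)
    (hp : ∀ a s, 0 < h a s) (hb : ∀ a, ∃ c > 0, ∀ s, c ≤ h a s) :
    ∃ f : E → ℝ → ℝ, (Continuous fun p : E × ℝ => f p.1 p.2) ∧ (∀ a s, f a (TT h a s) = s) ∧
      (∀ a y, TT h a (f a y) = y) ∧ (∀ a, StrictMono (f a)) ∧
      ∀ a y, HasDerivAt (f a) (h a (f a y))⁻¹ y := by
  choose f hf using fun a => (TT_surj hc hb a)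
  have hf1 : ∀ a s, f a (TT h a s) = s := fun a s => (TT_mono hc hp a).injective (hf a _)
  have hmono : ∀ a, StrictMono (f a) := by
    intro a y z hyz
    rw [← (TT_mono hc hp a).lt_iff_lt, hf, hf]
    exact hyz
  have hcont : Continuous fun p : E × ℝ => f p.1 p.2 := by
    rw [continuous_iff_continuousAt]
    rintro ⟨a, y⟩
    refine tendsto_order.2 ⟨fun b hb' => ?_, fun b hb' => ?_⟩
    · have h1 : TT h a b < y := by
        have := (TT_mono hc hp a) hb'
        rwa [hf] at this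
      have h2 : ∀ᶠ p : E × ℝ in 𝓝 (a, y), TT h p.1 b < p.2 := by
        refine ContinuousAt.eventually_lt ?_ ?_ h1
        · exact ((TT_cont hc).comp (by fun_prop : Continuous fun p : E × ℝ => (p.1, b))).continuousAt
        · exact continuous_snd.continuousAt
      filter_upwards [h2] with p hp2
      rw [← (TT_mono hc hp p.1).lt_iff_lt, hf]
      exact hp2
    · have h1 : y < TT h a b := by
        have := (TT_mono hc hp a) hb'
        rwa [hf] at this
      have h2 : ∀ᶠ p : E × ℝ in 𝓝 (a, y), p.2 < TT h p.1 b := by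
        refine ContinuousAt.eventually_lt ?_ ?_ h1
        · exact continuous_snd.continuousAt
        · exact ((TT_cont hc).comp (by fun_prop : Continuous fun p : E × ℝ => (p.1, b))).continuousAt
      filter_upwards [h2] with p hp2
      rw [← (TT_mono hc hp p.1).lt_iff_lt, hf]
      exact hp2
  refine ⟨f, hcont, hf1, hf, hmono, fun a y => ?_⟩
  refine HasDerivAt.of_local_left_inverse ?_ (TT_deriv hc a (f a y)) (hp a _).ne' ?_
  · exact (hcont.comp (by fun_prop : Continuous fun z : ℝ => (a, z))).continuousAt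
  · exact Eventually.of_forall fun z => hf a z

end timechange

/-- retraction to the box -/
def rb (ξ : Fin 4 → ℝ) : Fin 4 → ℝ := fun i => max (-1) (min 1 (ξ i))

theorem rb_mem (ξ : Fin 4 → ℝ) : rb ξ ∈ box4 :=
  ⟨fun _ => le_max_left _ _, fun _ => max_le (by norm_num) (min_le_left _ _)⟩

theorem rb_eq {ξ : Fin 4 → ℝ} (h : ξ ∈ box4) : rb ξ = ξ := by
  funext i
  have h1 := h.1 i
  have h2 := h.2 i
  unfold rb
  rw [min_eq_right h2, max_eq_right h1]

theorem rb_cont : Continuous rb := by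
  refine continuous_pi fun i => ?_
  unfold rb
  fun_prop

/-- the energy relation along a solution -/
theorem Gk_const (m : Fin 3 → ℝ) (hm : ∀ i, 0 < m i) (S : ℝ) (x : ℝ → JS)
    (hf : ∀ s ∈ Icc 0 S, LFree m (x s))
    (hd : ∀ s ∈ Icc 0 S, HasDerivWithinAt x (LCV m (x s)) (Icc 0 S) s) (h0 : Gk m (x 0) = 0) :
    ∀ s ∈ Icc 0 S, Gk m (x s) = 0 := by
  intro s hs
  rw [← h0]
  refine constant_of_has_deriv_right_zero (f := fun s => Gk m (x s)) (a := 0) (b := S)
    (fun τ hτ => (Gk_deriv m hm x _ τ (hf τ hτ) (hd τ hτ)).continuousWithinAt) ?_ s hs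
  intro τ hτ
  have hτ' : τ ∈ Icc 0 S := ⟨hτ.1, hτ.2.le⟩
  have h1 := Gk_deriv m hm x _ τ (hf τ hτ') (hd τ hτ')
  refine h1.mono_of_mem_nhdsWithin ?_
  rw [mem_nhdsWithin]
  exact ⟨Iio S, isOpen_Iio, hτ.2, fun x hx => ⟨hτ.1.trans hx.2, (hx.1 : x < S).le⟩⟩

theorem newt : NewtStmt := by
  intro m hm S x hx hlev
  have hcl : ∀ s : ℝ, max 0 (min S s) ∈ Icc 0 S := fun s =>
    ⟨le_max_left _ _, max_le hx.pos.le (min_le_left _ _)⟩
  have hce : ∀ s ∈ Icc 0 S, max 0 (min S s) = s := fun s hs => by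
    rw [min_eq_right hs.2, max_eq_right hs.1]
  set h : (Fin 4 → ℝ) → ℝ → ℝ := fun ξ s => ‖(x (rb ξ) (max 0 (min S s))).1‖ ^ 2 with hh
  have hxc : Continuous fun p : (Fin 4 → ℝ) × ℝ => x (rb p.1) (max 0 (min S p.2)) := by
    refine hx.cont.comp_continuous (f := fun p : (Fin 4 → ℝ) × ℝ => (rb p.1, max 0 (min S p.2))) ?_ ?_
    · exact (rb_cont.comp continuous_fst).prodMk (by fun_prop)
    · exact fun p => ⟨rb_mem _, hcl _⟩
  have hhc : Continuous fun p : (Fin 4 → ℝ) × ℝ => h p.1 p.2 := by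
    simp only [hh]
    exact (hxc.fst.norm).pow 2
  have hhp : ∀ ξ s, 0 < h ξ s := by
    intro ξ s
    have := norm_pos_iff.2 (hx.free _ (rb_mem ξ) _ (hcl s)).1
    simp only [hh]
    positivity
  have hhb : ∀ ξ, ∃ c > 0, ∀ s, c ≤ h ξ s := by
    intro ξ
    have hc1 : Continuous fun s => h ξ s := hhc.comp (by fun_prop : Continuous fun s : ℝ => (ξ, s))
    obtain ⟨s₀, _, hs₀⟩ := isCompact_Icc.exists_isMinOn (nonempty_Icc.2 hx.pos.le)
      (hc1.continuousOn (s := Icc 0 S))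
    refine ⟨h ξ s₀, hhp ξ s₀, fun s => ?_⟩
    have h1 : h ξ s = h ξ (max 0 (min S s)) := by
      simp only [hh]
      rw [hce _ (hcl s)]
    rw [h1]
    exact hs₀ (hcl s)
  obtain ⟨f, hfc, hf1, hf2, hfm, hfd⟩ := exists_inv hhc hhp hhb
  have hdur : ∀ ξ, 0 < TT h ξ S := by
    intro ξ
    have := TT_mono hhc hhp ξ hx.pos
    rwa [TT_zero] at this
  have hf0 : ∀ ξ, f ξ 0 = 0 := by
    intro ξ
    have := hf1 ξ 0
    rwa [TT_zero] at this
  have hφmem : ∀ ξ, ∀ τ ∈ Icc (0 : ℝ) 1, f ξ (τ * TT h ξ S) ∈ Icc 0 S := by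
    intro ξ τ hτ
    constructor
    · rw [← hf0 ξ]
      exact (hfm ξ).monotone (mul_nonneg hτ.1 (hdur ξ).le)
    · conv_rhs => rw [← hf1 ξ S]
      exact (hfm ξ).monotone (by nlinarith [hτ.2, hdur ξ])
  have hG : ∀ ξ ∈ box4, ∀ s ∈ Icc 0 S, Gk m (x ξ s) = 0 := by
    intro ξ hξ
    refine Gk_const m hm S (x ξ) (hx.free ξ hξ) (hx.der ξ hξ) ?_
    exact Gk_zero m hm _ (hx.free ξ hξ 0 ⟨le_rfl, hx.pos.le⟩).1 (hlev ξ hξ).2.1
  have hφc : Continuous fun p : (Fin 4 → ℝ) × ℝ => f p.1 (p.2 * TT h p.1 S) := by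
    have h1 : Continuous fun p : (Fin 4 → ℝ) × ℝ => TT h p.1 S :=
      (TT_cont hhc).comp (by fun_prop : Continuous fun p : (Fin 4 → ℝ) × ℝ => (p.1, S))
    exact hfc.comp (continuous_fst.prodMk (continuous_snd.mul h1))
  refine ⟨fun ξ => TT h ξ S, fun ξ τ => toJ (x ξ (f ξ (τ * TT h ξ S))), ⟨?_, ?_, ?_, ?_⟩,
    fun ξ τ => f ξ (τ * TT h ξ S), ?_⟩
  · exact ((TT_cont hhc).comp (by fun_prop : Continuous fun ξ : Fin 4 → ℝ => (ξ, S))).continuousOn
  · have h1 : ContinuousOn (fun p : (Fin 4 → ℝ) × ℝ => x p.1 (f p.1 (p.2 * TT h p.1 S)))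
        (box4 ×ˢ Icc 0 1) := by
      refine hx.cont.comp (f := fun p : (Fin 4 → ℝ) × ℝ => (p.1, f p.1 (p.2 * TT h p.1 S)))
        (continuous_fst.prodMk hφc).continuousOn ?_
      exact fun p hp => ⟨hp.1, hφmem _ _ hp.2⟩
    have h2 : ∀ p ∈ (box4 ×ˢ Icc (0 : ℝ) 1 : Set ((Fin 4 → ℝ) × ℝ)),
        (starRingEnd ℂ) (x p.1 (f p.1 (p.2 * TT h p.1 S))).1 ≠ 0 := by
      intro p hp
      have := (hx.free _ hp.1 _ (hφmem p.1 _ hp.2)).1
      simpa using this
    unfold toJ
    exact (h1.fst.pow 2).prodMk (h1.snd.fst.prodMk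
      (((continuousOn_const.mul h1.snd.snd.fst).div
        (Complex.continuous_conj.comp_continuousOn h1.fst) h2).prodMk h1.snd.snd.snd))
  · exact fun ξ _ => hdur ξ
  · intro ξ hξ τ hτ
    have hm' := hφmem ξ τ hτ
    have hfr := hx.free ξ hξ _ hm'
    refine ⟨⟨pow_ne_zero 2 hfr.1, hfr.2.1, hfr.2.2⟩, ?_⟩
    have hD := toJ_deriv m hm (x ξ) (Icc 0 S) _ hfr (hG ξ hξ _ hm') (hx.der ξ hξ _ hm')
    have hφd : HasDerivWithinAt (fun τ => f ξ (τ * TT h ξ S))
        ((h ξ (f ξ (τ * TT h ξ S)))⁻¹ * TT h ξ S) (Icc 0 1) τ := by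
      have h1 : HasDerivAt (fun τ : ℝ => τ * TT h ξ S) (TT h ξ S) τ := by
        simpa using (hasDerivAt_id τ).mul_const (TT h ξ S)
      exact ((hfd ξ (τ * TT h ξ S)).comp τ h1).hasDerivWithinAt
    have h3 := HasDerivWithinAt.scomp τ hD hφd (fun y hy => hφmem ξ y hy)
    refine h3.congr_deriv ?_
    have h4 : h ξ (f ξ (τ * TT h ξ S)) = ‖(x ξ (f ξ (τ * TT h ξ S))).1‖ ^ 2 := by
      simp only [hh]
      rw [rb_eq hξ]
      have := hce _ hm'
      simp only [hh, rb_eq hξ] at this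
      rw [this]
    rw [smul_smul]
    congr 1
    rw [h4]
    have h5 := norm_pos_iff.2 hfr.1
    field_simp
  · intro ξ hξ
    refine ⟨?_, ?_, ?_, ?_, fun τ _ => rfl⟩
    · exact (hφc.comp (by fun_prop : Continuous fun τ : ℝ => (ξ, τ))).continuousOn
    · intro a _ b _ hab
      exact hfm ξ (by nlinarith [hdur ξ])
    · simp only [zero_mul, hf0]
    · simp only [one_mul, hf1]

end

end Pool.Agent.HM.H54
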