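import Pool.Agent.Helper54_HM.HomIs

/-!
# Module WORD: every loop in `ℂ ∖ {0,1}` is freely homotopic to a word
-/

set_option autoImplicit false

namespace Pool.Agent.HM.H54

open Complex Set Topology unitInterval

noncomputable section

section groupoid
variable {X : Type} [TopologicalSpace X] {x y z w : X}

theorem q_cancel (c : Path.Homotopic.Quotient x y) (d : Path.Homotopic.Quotient x z) :
    c.trans (c.symm.trans d) = d := by
  rw [← Path.Homotopic.Quotient.trans_assoc, Path.Homotopic.Quotient.trans_symm,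
    Path.Homotopic.Quotient.refl_trans]

theorem q_cancel' (c : Path.Homotopic.Quotient x y) (d : Path.Homotopic.Quotient y z) :
    c.symm.trans (c.trans d) = d := by
  rw [← Path.Homotopic.Quotient.trans_assoc, Path.Homotopic.Quotient.symm_trans,
    Path.Homotopic.Quotient.refl_trans]

theorem q_symm_trans (a : Path.Homotopic.Quotient x y) (b : Path.Homotopic.Quotient y z) :
    (a.trans b).symm = b.symm.trans a.symm := by
  obtain ⟨P, rfl⟩ := Path.Homotopic.Quotient.mk_surjective a
  obtain ⟨Q, rfl⟩ := Path.Homotopic.Quotient.mk_surjective b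
  rw [← Path.Homotopic.Quotient.mk_trans, ← Path.Homotopic.Quotient.mk_symm, Path.trans_symm]
  rfl

theorem q_symm_symm (a : Path.Homotopic.Quotient x y) : a.symm.symm = a := by
  obtain ⟨P, rfl⟩ := Path.Homotopic.Quotient.mk_surjective a
  rw [← Path.Homotopic.Quotient.mk_symm, ← Path.Homotopic.Quotient.mk_symm, Path.symm_symm]

theorem q_sub (P : Path x y) (a b c : I) :
    Path.Homotopic.Quotient.mk (P.subpath a c) = (Path.Homotopic.Quotient.mk (P.subpath a b)).trans
      (Path.Homotopic.Quotient.mk (P.subpath b c)) := by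
  rw [← Path.Homotopic.Quotient.mk_trans, Path.Homotopic.Quotient.eq]
  exact ⟨(Path.Homotopy.subpathTransSubpath P a b c).symm⟩

end groupoid

/-- standard class from a point to the base point -/
def cl (u : C01) : Path.Homotopic.Quotient u bp :=
  if h : 0 < (u : ℂ).re ∧ (u : ℂ).re < 1 then Path.Homotopic.Quotient.mk (linP u bp h bp_strip)
  else Path.Homotopic.Quotient.mk (join_both u).choose

theorem cl_of_strip (u : C01) (h : 0 < (u : ℂ).re ∧ (u : ℂ).re < 1) :
    cl u = Path.Homotopic.Quotient.mk (linP u bp h bp_strip) := by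
  rw [cl, dif_pos h]

theorem cl_spec (u : C01) : ∃ R : Path u bp, Path.Homotopic.Quotient.mk R = cl u ∧
    ∀ e : Bool, (sg e (u : ℂ)).re < 1 → ∀ t, (sg e (R t : ℂ)).re < 1 := by
  by_cases h : 0 < (u : ℂ).re ∧ (u : ℂ).re < 1
  · refine ⟨linP u bp h bp_strip, (cl_of_strip u h).symm, fun e _ t => ?_⟩
    rw [sg_re, linP_re]
    have hs0 := t.2.1
    have hs1 := t.2.2
    have hb := bp_strip
    have hz : (1 - (t : ℝ)) * (u : ℂ).re + (t : ℝ) * (bp : ℂ).re ∈ Ioo (0 : ℝ) 1 := by
      have := (convex_Ioo (0 : ℝ) 1) ⟨h.1, h.2⟩ ⟨hb.1, hb.2⟩ (sub_nonneg.2 hs1) hs0 (by ring)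
      simpa using this
    exact (sr_mem e hz).2
  · exact ⟨(join_both u).choose, by rw [cl, dif_neg h], (join_both u).choose_spec⟩

/-- a piece in a standard class -/
theorem piece_class (e : Bool) {u v : C01} (P : Path u v) (f : ℝ → ℂ) (n : ℤ)
    (hf : ∀ t : I, sg e (P t : ℂ) = f t) (h : ClassA f n) :
    Path.Homotopic.Quotient.mk P = (cl u).trans ((al e n).trans (cl v).symm) := by
  obtain ⟨x, hx, y, hy, hux, hvy, hI⟩ := class_is e P f n hf h
  have hu : 0 < (u : ℂ).re ∧ (u : ℂ).re < 1 := by rw [hux]; exact hx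
  have hv : 0 < (v : ℂ).re ∧ (v : ℂ).re < 1 := by rw [hvy]; exact hy
  rw [cl_of_strip u hu, cl_of_strip v hv]
  exact eq_al e n u v hu hv hux hvy _ hI

/-- a piece in a half plane -/
theorem piece_half (e : Bool) {u v : C01} (P : Path u v) (h : ∀ t, (sg e (P t : ℂ)).re < 1) :
    ∃ n : ℤ, Path.Homotopic.Quotient.mk P = (cl u).trans ((al e n).trans (cl v).symm) := by
  obtain ⟨R, hR, hRe⟩ := cl_spec u
  obtain ⟨S, hS, hSe⟩ := cl_spec v
  have hu : (sg e (u : ℂ)).re < 1 := by simpa using h 0
  have hv : (sg e (v : ℂ)).re < 1 := by simpa using h 1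
  obtain ⟨n, hn⟩ := half_class e (R.symm.trans (P.trans S)) (by
    intro t
    rw [Path.trans_apply]
    split_ifs
    · exact hRe e hu _
    · rw [Path.trans_apply]
      split_ifs
      · exact h _
      · exact hSe e hv _)
  refine ⟨n, ?_⟩
  rw [← hn, Path.Homotopic.Quotient.mk_trans, Path.Homotopic.Quotient.mk_trans,
    Path.Homotopic.Quotient.mk_symm, hR, hS]
  simp only [Path.Homotopic.Quotient.trans_assoc, q_cancel, Path.Homotopic.Quotient.trans_symm,
    Path.Homotopic.Quotient.trans_refl]

/-- the word -/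
def W (n : ℕ → ℤ) : ℕ → Path.Homotopic.Quotient bp bp
  | 0 => Path.Homotopic.Quotient.refl bp
  | j + 1 => (W n j).trans ((al true (n (2 * j))).trans (al false (n (2 * j + 1))))

/-- closing up -/
theorem close_up {x y : C01} (P : Path x y) (V : Path.Homotopic.Quotient bp bp)
    (h : Path.Homotopic.Quotient.mk (P.subpath 0 1) = (cl (P 0)).trans (V.trans (cl (P 1)).symm)) :
    Path.Homotopic.Quotient.mk P = (cl x).trans (V.trans (cl y).symm) := by
  rw [Path.subpath_zero_one] at h
  have key : ∀ (x' y' : C01) (hx : x' = x) (hy : y' = y),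
      Path.Homotopic.Quotient.mk (P.cast hx hy) = (cl x').trans (V.trans (cl y').symm) →
      Path.Homotopic.Quotient.mk P = (cl x).trans (V.trans (cl y).symm) := by
    rintro _ _ rfl rfl h'
    rw [← h']
    rfl
  exact key _ _ _ _ h

/-- class of a path cut into pieces -/
theorem class_word {x y : C01} (P : Path x y) (t : ℕ → I) (k : ℕ) (n : ℕ → ℤ) (h0 : t 0 = 0)
    (h1 : t k = 1)
    (h : ∀ j < k, Path.Homotopic.Quotient.mk (P.subpath (t j) (t (j + 1))) =
      (cl (P (t j))).trans (((al true (n (2 * j))).trans (al false (n (2 * j + 1)))).trans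
        (cl (P (t (j + 1)))).symm)) :
    Path.Homotopic.Quotient.mk P = (cl x).trans ((W n k).trans (cl y).symm) := by
  have key : ∀ j ≤ k, Path.Homotopic.Quotient.mk (P.subpath 0 (t j)) =
      (cl (P 0)).trans ((W n j).trans (cl (P (t j))).symm) := by
    intro j
    induction j with
    | zero =>
      intro _
      rw [h0, Path.subpath_self, W]
      simp only [Path.Homotopic.Quotient.refl_trans, Path.Homotopic.Quotient.trans_symm]
      rfl
    | succ j ih =>
      intro hj
      rw [q_sub P 0 (t j) (t (j + 1)), ih (by omega), h j (by omega), W]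
      simp only [Path.Homotopic.Quotient.trans_assoc, q_cancel']
  have := key k le_rfl
  rw [h1] at this
  exact close_up P _ this

/-- the closed path of a loop -/
def loopP (γ : C(AddCircle (1 : ℝ), C01)) : Path (γ 0) (γ 0) where
  toFun t := γ ((t : ℝ) : AddCircle (1 : ℝ))
  continuous_toFun := γ.continuous.comp
    ((AddCircle.continuous_mk' (1 : ℝ)).comp continuous_subtype_val)
  source' := by simp
  target' := by
    show γ (((1 : I) : ℝ) : AddCircle (1 : ℝ)) = γ 0
    rw [show ((1 : I) : ℝ) = 1 from rfl, AddCircle.coe_period]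

theorem word : WordStmt := by
  intro γ
  -- pieces of `γ`
  set P := loopP γ with hP
  obtain ⟨t, ht0, htm, ⟨N, hN⟩, htc⟩ :=
    exists_monotone_Icc_subset_open_cover_unitInterval
      (c := fun e : Bool => {s : I | (sg e (P s : ℂ)).re < 1})
      (fun e => isOpen_lt (Complex.continuous_re.comp ((sg_cont e).comp
        (continuous_subtype_val.comp P.continuous))) continuous_const)
      (by
        intro s _
        rw [mem_iUnion]
        by_cases h : (P s : ℂ).re < 1
        · exact ⟨true, by simpa [sg] using h⟩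
        · refine ⟨false, ?_⟩
          show (sg false (P s : ℂ)).re < 1
          rw [sg_re]
          simp only [sr, Bool.false_eq_true, if_false]
          linarith)
  have hpiece : ∀ i, ∃ e : Bool, ∃ m : ℤ,
      Path.Homotopic.Quotient.mk (P.subpath (t i) (t (i + 1))) =
        (cl (P (t i))).trans ((al e m).trans (cl (P (t (i + 1)))).symm) := by
    intro i
    obtain ⟨e, he⟩ := htc i
    refine ⟨e, piece_half e _ fun s => ?_⟩
    have : (P.subpath (t i) (t (i + 1))) s ∈ range (P.subpath (t i) (t (i + 1))) := ⟨s, rfl⟩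
    rw [Path.range_subpath_of_le _ _ _ (htm (Nat.le_succ i))] at this
    obtain ⟨r, hr, hrs⟩ := this
    rw [← hrs]
    exact he hr
  choose e m hem using hpiece
  set n : ℕ → ℤ := fun j => if Even j then (if e (j / 2) then m (j / 2) else 0) else
    (if e (j / 2) then 0 else m (j / 2)) with hn
  have hn0 : ∀ j, n (2 * j) = if e j then m j else 0 := by
    intro j
    simp only [hn]
    rw [if_pos (even_two_mul j), Nat.mul_div_cancel_left j (by norm_num)]
  have hn1 : ∀ j, n (2 * j + 1) = if e j then 0 else m j := by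
    intro j
    have h1 : ¬ Even (2 * j + 1) := by simp
    have h2 : (2 * j + 1) / 2 = j := by omega
    simp only [hn]
    rw [if_neg h1, h2]
  have hal : ∀ j, (al true (n (2 * j))).trans (al false (n (2 * j + 1))) = al (e j) (m j) := by
    intro j
    rw [hn0, hn1]
    cases e j
    · simp [al_zero]
    · simp [al_zero]
  have hγ : Path.Homotopic.Quotient.mk P = (cl (γ 0)).trans ((W n (N + 1)).trans (cl (γ 0)).symm) :=
    class_word P t (N + 1) n ht0 (hN (N + 1) (Nat.le_succ N)) fun j _ => by
      rw [hal]; exact hem j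
  refine ⟨N + 1, Nat.succ_pos N, n, fun δ hδ => ?_⟩
  -- pieces of `δ`
  obtain ⟨r, hr0, hr1, hrm, hrc⟩ := hδ
  set Q := loopP δ with hQ
  have hmono : ∀ j ≤ 2 * (N + 1), 0 ≤ r j := by
    intro j
    induction j with
    | zero => intro _; rw [hr0]
    | succ j ih => intro hj; linarith [ih (by omega), hrm j (by omega)]
  have hmono' : ∀ j ≤ 2 * (N + 1), r (2 * (N + 1) - j) ≤ 1 := by
    intro j
    induction j with
    | zero => intro _; rw [Nat.sub_zero, hr1]
    | succ j ih =>
      intro hj
      have h1 := hrm (2 * (N + 1) - (j + 1)) (by omega)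
      have h2 : 2 * (N + 1) - (j + 1) + 1 = 2 * (N + 1) - j := by omega
      rw [h2] at h1
      linarith [ih (by omega)]
  have hmem : ∀ j ≤ 2 * (N + 1), r j ∈ Icc (0 : ℝ) 1 := by
    intro j hj
    refine ⟨hmono j hj, ?_⟩
    have := hmono' (2 * (N + 1) - j) (by omega)
    rwa [Nat.sub_sub_self hj] at this
  set rI : ℕ → I := fun j => projIcc 0 1 zero_le_one (r j) with hrI
  have hrIv : ∀ j ≤ 2 * (N + 1), (rI j : ℝ) = r j := by
    intro j hj
    simp only [hrI]
    rw [projIcc_of_mem zero_le_one (hmem j hj)]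
  have hsub : ∀ j < 2 * (N + 1), ∀ s : I, ((Q.subpath (rI j) (rI (j + 1))) s : ℂ)
      = sub (fun t : ℝ => (δ (t : AddCircle (1 : ℝ)) : ℂ)) (r j) (r (j + 1)) s := by
    intro j hj s
    unfold sub
    show (δ (((Icc.convexComb (rI j) (rI (j + 1)) s : I) : ℝ) : AddCircle (1 : ℝ)) : ℂ) = _
    have : ((Icc.convexComb (rI j) (rI (j + 1)) s : I) : ℝ) = r j + (r (j + 1) - r j) * s := by
      rw [Icc.coe_convexComb, hrIv j hj.le, hrIv (j + 1) hj]
      ring
    rw [this]
  have hδ' : Path.Homotopic.Quotient.mk Q = (cl (δ 0)).trans ((W n (N + 1)).trans (cl (δ 0)).symm) := by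
    refine class_word Q (fun j => rI (2 * j)) (N + 1) n ?_ ?_ fun j hj => ?_
    · apply Subtype.ext
      show (rI (2 * 0) : ℝ) = 0
      rw [hrIv _ (by omega), Nat.mul_zero, hr0]
    · apply Subtype.ext
      show (rI (2 * (N + 1)) : ℝ) = 1
      rw [hrIv _ le_rfl, hr1]
    · have hA := piece_class true (Q.subpath (rI (2 * j)) (rI (2 * j + 1)))
        (sub (fun t : ℝ => (δ (t : AddCircle (1 : ℝ)) : ℂ)) (r (2 * j)) (r (2 * j + 1))) (n (2 * j))
        (fun s => by
          rw [← hsub (2 * j) (by omega) s]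
          simp [sg]) (hrc j hj).1
      have hB := piece_class false (Q.subpath (rI (2 * j + 1)) (rI (2 * j + 2)))
        (fun s => 1 - sub (fun t : ℝ => (δ (t : AddCircle (1 : ℝ)) : ℂ)) (r (2 * j + 1))
          (r (2 * j + 2)) s) (n (2 * j + 1))
        (fun s => by
          rw [← hsub (2 * j + 1) (by omega) s]
          simp [sg]) (hrc j hj).2
      show Path.Homotopic.Quotient.mk (Q.subpath (rI (2 * j)) (rI (2 * j + 2))) = _
      rw [q_sub Q _ (rI (2 * j + 1)) _, hA, hB]
      simp only [Path.Homotopic.Quotient.trans_assoc, q_cancel']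
      rfl
  refine free_of_conj γ δ P Q (fun _ => rfl) (fun _ => rfl) ((cl (γ 0)).trans (cl (δ 0)).symm) ?_
  rw [hγ, hδ', q_symm_trans, q_symm_symm]
  simp only [Path.Homotopic.Quotient.trans_assoc, q_cancel']

end

end Pool.Agent.HM.H54
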