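import Pool.Agent.Helper35_TB.Stmt3

/-! FAR: common lemmas for the angle modules ANG and TURN. -/

set_option autoImplicit false

namespace Pool.Agent.HM.H54F

open Complex Set Topology Pool.Agent.HM Pool.Agent.HM.FAR

noncomputable section

/-- derivative of the Laplace vector, as a complex expression -/
def Apr (κ : ℝ) (z w φ : ℂ) : ℂ :=
  -I * (((Helper35TB.cr z φ / κ : ℝ) : ℂ) * w + ((Helper35TB.cr z w / κ : ℝ) : ℂ) * φ)

lemma apr_re (κ : ℝ) (z w φ : ℂ) : (Apr κ z w φ).re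
    = (Helper35TB.cr z φ * w.im + Helper35TB.cr z w * φ.im) / κ := by
  simp only [Apr, mul_re, neg_re, neg_im, I_re, I_im, add_re, add_im, mul_im, ofReal_re, ofReal_im]
  ring

lemma apr_im (κ : ℝ) (z w φ : ℂ) : (Apr κ z w φ).im
    = -((Helper35TB.cr z φ * w.re + Helper35TB.cr z w * φ.re) / κ) := by
  simp only [Apr, mul_re, neg_re, neg_im, I_re, I_im, add_re, add_im, mul_im, ofReal_re, ofReal_im]
  ring

lemma apr_eq (κ : ℝ) (z w φ : ℂ) : Apr κ z w φ
    = (⟨(Helper35TB.cr z φ * w.im + Helper35TB.cr z w * φ.im) / κ,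
        -((Helper35TB.cr z φ * w.re + Helper35TB.cr z w * φ.re) / κ)⟩ : ℂ) := by
  apply Complex.ext
  · exact apr_re _ _ _ _
  · exact apr_im _ _ _ _

lemma im_apr_div (κ : ℝ) (z w φ : ℂ) :
    (Apr κ z w φ / Helper35TB.Lap κ z w).im = omg κ z w φ := by
  rw [Complex.div_im, apr_re, apr_im, Complex.normSq_eq_norm_sq, omg]
  simp only [Helper35TB.dt]
  by_cases hκ : κ = 0
  · subst hκ; simp
  by_cases hL : ‖Helper35TB.Lap κ z w‖ = 0
  · rw [hL]; simp
  field_simp
  ring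

/-- imaginary part of the logarithmic derivative of A * conj B -/
lemma im_log (A B A' B' : ℂ) (hA : A ≠ 0) (hB : B ≠ 0) :
    ((A' * (starRingEnd ℂ) B + A * (starRingEnd ℂ) B') / (A * (starRingEnd ℂ) B)).im
      = (A' / A).im - (B' / B).im := by
  have hB' : (starRingEnd ℂ) B ≠ 0 := (map_ne_zero _).mpr hB
  have h : (A' * (starRingEnd ℂ) B + A * (starRingEnd ℂ) B') / (A * (starRingEnd ℂ) B)
      = A' / A + (starRingEnd ℂ) (B' / B) := by
    rw [map_div₀]
    field_simp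
  rw [h, add_im, conj_im]
  ring

lemma hasDerivAt_conj {f : ℝ → ℂ} {f' : ℂ} {t : ℝ} (h : HasDerivAt f f' t) :
    HasDerivAt (fun s => (starRingEnd ℂ) (f s)) ((starRingEnd ℂ) f') t := by
  have := (Complex.conjCLE.toContinuousLinearMap.hasFDerivAt (x := f t)).comp_hasDerivAt t h
  simpa [Function.comp_def] using this

section run

variable {m : Fin 3 → ℝ} {X : JS}

/-- numerical facts in RegA -/
structure Num (a b c : ℝ) (x y u v : ℂ) : Prop where
  B : Helper35TB.MassB a b c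
  x0 : x ≠ 0
  y0 : y ≠ 0
  lapb : Helper35TB.Lap (a + b) x u ≠ 0
  lapo : Helper35TB.Lap (a + b + c) y v ≠ 0
  H : Helper35TB.mub a b * Helper35TB.cr x u + Helper35TB.muo a b c * Helper35TB.cr y v = 0
  mub1 : 0.4999 ≤ Helper35TB.mub a b
  mub2 : Helper35TB.mub a b ≤ 0.5001
  muo1 : 0.6665 ≤ Helper35TB.muo a b c
  muo2 : Helper35TB.muo a b c ≤ 0.6668
  np : y - (a / (a + b)) • x ≠ 0
  nq : y + (b / (a + b)) • x ≠ 0

lemma num (hB : BridgeStmt) (hm : NearF m) (h : RegA m X) :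
    Num (m 0) (m 1) (m 2) X.1 X.2.1 X.2.2.1 X.2.2.2 := by
  have hx0 : X.1 ≠ 0 := norm_pos_iff.mp (by linarith [h.r1])
  have hy0 : X.2.1 ≠ 0 := norm_pos_iff.mp (by linarith [h.R1])
  obtain ⟨hmn, hcr, hdt, hvf, hE, hMu, hSS, hEO, hl, ho, hfr⟩ := hB m hm X hx0 hy0
  have hM := hmn.toB
  obtain ⟨hF, hE1, hMu0⟩ := h.lev
  have hEb := h.E
  have hr1 := h.r1
  have hr2 := h.r2
  have hR := h.R1
  have hL2 := h.L2
  rw [hE] at hE1
  rw [hMu] at hMu0
  rw [hEO] at hEb
  rw [hcr] at hL2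
  set a := m 0
  set b := m 1
  set c := m 2
  set x := X.1
  set y := X.2.1
  set u := X.2.2.1
  set v := X.2.2.2
  have ha := abs_le.mp hM.ha
  have hb := abs_le.mp hM.hb
  have hc := abs_le.mp hM.hc
  have hab : 0 < a + b := by linarith [hM.m1]
  have habc : 0 < a + b + c := by linarith [hM.M1]
  have hmub1 : 0.4999 ≤ Helper35TB.mub a b := by
    rw [Helper35TB.mub, le_div_iff₀ hab]
    nlinarith [hM.m2]
  have hmub2 : Helper35TB.mub a b ≤ 0.5001 := by
    rw [Helper35TB.mub, div_le_iff₀ hab]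
    nlinarith [hM.m2]
  have hmuo1 : 0.6665 ≤ Helper35TB.muo a b c := by
    rw [Helper35TB.muo, le_div_iff₀ habc]
    nlinarith [hM.m2, hM.M2, hM.m1, hM.M1]
  have hmuo2 : Helper35TB.muo a b c ≤ 0.6668 := by
    rw [Helper35TB.muo, div_le_iff₀ habc]
    nlinarith [hM.m2, hM.M2, hM.m1, hM.M1]
  have heo : |Helper35TB.eo a b c y v| ≤ 1.24e-3 := by
    rw [abs_mul, abs_of_pos (by norm_num : (0 : ℝ) < 2 / 3)] at hEb
    norm_num at hEb ⊢
    linarith
  have hW := Helper35TB.Wf_bound hM (by linarith : ‖x‖ ≤ 2) (by linarith : 22.5 ≤ ‖y‖)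
  have hW2 : 0.6 * ‖x‖ ^ 2 / ‖y‖ ^ 3 ≤ 1e-3 := by
    have hy3 : (22 : ℝ) ^ 3 ≤ ‖y‖ ^ 3 := pow_le_pow_left₀ (by norm_num) (by linarith) 3
    rw [div_le_iff₀ (by positivity)]
    have : ‖x‖ ^ 2 ≤ 1.002 ^ 2 := pow_le_pow_left₀ (norm_nonneg _) hr2 2
    nlinarith
  have hWl := (abs_le.mp (hW.trans hW2)).1
  have heo' := abs_le.mp heo
  have heb : -2.01 ≤ Helper35TB.eb a b x u := by
    rw [Helper35TB.En] at hE1
    have h1 : Helper35TB.muo a b c * Helper35TB.eo a b c y v ≤ 0.01 := by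
      have : |Helper35TB.muo a b c * Helper35TB.eo a b c y v| ≤ 0.6668 * 1.24e-3 := by
        rw [abs_mul, abs_of_nonneg (by linarith)]
        exact mul_le_mul hmuo2 heo (abs_nonneg _) (by norm_num)
      have := (abs_le.mp this).2
      norm_num at this ⊢
      linarith
    have h2 : |Helper35TB.muo a b c * Helper35TB.eo a b c y v| ≤ 0.6668 * 1.24e-3 := by
      rw [abs_mul, abs_of_nonneg (by linarith)]
      exact mul_le_mul hmuo2 heo (abs_nonneg _) (by norm_num)
    have h3 := (abs_le.mp h2).2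
    by_contra hcon
    push Not at hcon
    nlinarith
  -- Laplace vectors
  have hlb : Helper35TB.Lap (a + b) x u ≠ 0 := by
    intro h0
    have h1 := Helper35TB.norm_lap_sq (a + b) x u hx0 hab.ne'
    rw [h0, norm_zero] at h1
    have h2 : ‖u‖ ^ 2 / 2 - (a + b) / ‖x‖ = Helper35TB.eb a b x u := rfl
    rw [h2] at h1
    have h3 : Helper35TB.cr x u ^ 2 ≤ 0.109 ^ 2 := by
      rw [← sq_abs]
      exact pow_le_pow_left₀ (abs_nonneg _) hL2 2
    have h4 : (3.9 : ℝ) ≤ (a + b) ^ 2 := by nlinarith [hM.m1]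
    have h5 : Helper35TB.cr x u ^ 2 / (a + b) ^ 2 ≤ 0.01 := by
      rw [div_le_iff₀ (by positivity)]
      nlinarith
    have h6 : 0 ≤ Helper35TB.cr x u ^ 2 / (a + b) ^ 2 := by positivity
    have h7 : 2 * Helper35TB.eb a b x u * Helper35TB.cr x u ^ 2 / (a + b) ^ 2
        = 2 * Helper35TB.eb a b x u * (Helper35TB.cr x u ^ 2 / (a + b) ^ 2) := by ring
    rw [h7] at h1
    nlinarith
  have hlo : Helper35TB.Lap (a + b + c) y v ≠ 0 := by
    intro h0
    have h1 := Helper35TB.norm_lap_sq (a + b + c) y v hy0 habc.ne'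
    rw [h0, norm_zero] at h1
    have h2 : ‖v‖ ^ 2 / 2 - (a + b + c) / ‖y‖ = Helper35TB.eo a b c y v := rfl
    rw [h2] at h1
    have h3 : Helper35TB.cr y v ^ 2 ≤ 0.1 ^ 2 := by
      have h31 : |Helper35TB.muo a b c * Helper35TB.cr y v| = |Helper35TB.mub a b * Helper35TB.cr x u| := by
        have : Helper35TB.muo a b c * Helper35TB.cr y v = -(Helper35TB.mub a b * Helper35TB.cr x u) := by
          rw [Helper35TB.Am] at hMu0; linarith
        rw [this, abs_neg]
      rw [abs_mul, abs_mul, abs_of_nonneg (by linarith : 0 ≤ Helper35TB.muo a b c),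
        abs_of_nonneg (by linarith : 0 ≤ Helper35TB.mub a b)] at h31
      have h32 : Helper35TB.mub a b * |Helper35TB.cr x u| ≤ 0.5001 * 0.109 :=
        mul_le_mul hmub2 hL2 (abs_nonneg _) (by norm_num)
      have h33 : 0.6665 * |Helper35TB.cr y v| ≤ 0.5001 * 0.109 := by
        calc 0.6665 * |Helper35TB.cr y v| ≤ Helper35TB.muo a b c * |Helper35TB.cr y v| :=
              mul_le_mul_of_nonneg_right hmuo1 (abs_nonneg _)
          _ ≤ _ := by rw [h31]; exact h32
      have h34 : |Helper35TB.cr y v| ≤ 0.1 := by linarith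
      rw [← sq_abs]
      exact pow_le_pow_left₀ (abs_nonneg _) h34 2
    have h4 : (8 : ℝ) ≤ (a + b + c) ^ 2 := by nlinarith [hM.M1]
    have h5 : Helper35TB.cr y v ^ 2 / (a + b + c) ^ 2 ≤ 0.01 := by
      rw [div_le_iff₀ (by positivity)]
      nlinarith
    have h6 : 0 ≤ Helper35TB.cr y v ^ 2 / (a + b + c) ^ 2 := by positivity
    have h7 : 2 * Helper35TB.eo a b c y v * Helper35TB.cr y v ^ 2 / (a + b + c) ^ 2
        = 2 * Helper35TB.eo a b c y v * (Helper35TB.cr y v ^ 2 / (a + b + c) ^ 2) := by ring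
    rw [h7] at h1
    have h8 : -0.01 ≤ Helper35TB.eo a b c y v := by
      have := heo'.1; norm_num at this ⊢; linarith
    nlinarith
  have hxn := norm_nonneg x
  have hp : y - (a / (a + b)) • x ≠ 0 := by
    intro h0
    obtain ⟨p1, -⟩ := Helper35TB.dist_p (a / (a + b)) (by linarith [hM.be1]) x y
    rw [h0, norm_zero] at p1
    nlinarith [hM.be2]
  have hq : y + (b / (a + b)) • x ≠ 0 := by
    intro h0
    obtain ⟨p1, -⟩ := Helper35TB.dist_q (b / (a + b)) (by linarith [hM.al1]) x y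
    rw [h0, norm_zero] at p1
    nlinarith [hM.al2]
  exact ⟨hM, hx0, hy0, hlb, hlo, hMu0, hmub1, hmub2, hmuo1, hmuo2, hp, hq⟩

end run

/-- derivatives along a run -/
lemma kep {m : Fin 3 → ℝ} {σ T : ℝ} {X : ℝ → JS} (hB : BridgeStmt) (hm : NearF m)
    (hR : Run m σ T X) (hA : ∀ t ∈ Icc (0 : ℝ) T, RegA m (X t)) {t : ℝ} (ht : t ∈ Icc (0 : ℝ) T) :
    Helper35TB.KepAt (m 0 + m 1) (fun s => (X s).1) (fun s => (X s).2.2.1)
      (Helper35TB.fF (m 0) (m 1) (m 2) (X t).1 (X t).2.1) t ∧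
    Helper35TB.KepAt (m 0 + m 1 + m 2) (fun s => (X s).2.1) (fun s => (X s).2.2.2)
      (Helper35TB.gF (m 0) (m 1) (m 2) (X t).1 (X t).2.1) t := by
  have hN := num hB hm (hA t ht)
  obtain ⟨-, -, -, hvf, -⟩ := hB m hm (X t) hN.x0 hN.y0
  have hd := hR.ode t (hA t ht).good
  rw [hvf] at hd
  have h1 : HasDerivAt (fun s => (X s).1) (X t).2.2.1 t := by
    have := (hasFDerivAt_fst (𝕜 := ℝ) (p := X t)).comp_hasDerivAt t hd
    simpa [Function.comp_def] using this
  have h2 : HasDerivAt (fun s => (X s).2) ((X t).2.2.2,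
      Helper35TB.accX (m 0) (m 1) (m 2) (X t).1 (X t).2.1,
      Helper35TB.accY (m 0) (m 1) (m 2) (X t).1 (X t).2.1) t := by
    have := (hasFDerivAt_snd (𝕜 := ℝ) (p := X t)).comp_hasDerivAt t hd
    simpa [Function.comp_def] using this
  have h3 : HasDerivAt (fun s => (X s).2.1) (X t).2.2.2 t := by
    have := (hasFDerivAt_fst (𝕜 := ℝ) (p := (X t).2)).comp_hasDerivAt t h2
    simpa [Function.comp_def] using this
  have h4 : HasDerivAt (fun s => (X s).2.2) (
      Helper35TB.accX (m 0) (m 1) (m 2) (X t).1 (X t).2.1,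
      Helper35TB.accY (m 0) (m 1) (m 2) (X t).1 (X t).2.1) t := by
    have := (hasFDerivAt_snd (𝕜 := ℝ) (p := (X t).2)).comp_hasDerivAt t h2
    simpa [Function.comp_def] using this
  have h5 : HasDerivAt (fun s => (X s).2.2.1)
      (Helper35TB.accX (m 0) (m 1) (m 2) (X t).1 (X t).2.1) t := by
    have := (hasFDerivAt_fst (𝕜 := ℝ) (p := (X t).2.2)).comp_hasDerivAt t h4
    simpa [Function.comp_def] using this
  have h6 : HasDerivAt (fun s => (X s).2.2.2)
      (Helper35TB.accY (m 0) (m 1) (m 2) (X t).1 (X t).2.1) t := by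
    have := (hasFDerivAt_snd (𝕜 := ℝ) (p := (X t).2.2)).comp_hasDerivAt t h4
    simpa [Function.comp_def] using this
  exact ⟨⟨h1, h5⟩, ⟨h3, h6⟩⟩

/-! continuity -/

lemma contK {f : ℝ → ℂ} {s : Set ℝ} (hf : ContinuousOn f s) (h0 : ∀ t ∈ s, f t ≠ 0) :
    ContinuousOn (fun t => Helper35TB.K (f t)) s := by
  unfold Helper35TB.K
  have h1 : ContinuousOn (fun t => (‖f t‖ ^ 3)⁻¹) s :=
    (hf.norm.pow 3).inv₀ (fun t ht => pow_ne_zero 3 (norm_ne_zero_iff.mpr (h0 t ht)))
  exact h1.smul hf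

lemma contCr {f g : ℝ → ℂ} {s : Set ℝ} (hf : ContinuousOn f s) (hg : ContinuousOn g s) :
    ContinuousOn (fun t => Helper35TB.cr (f t) (g t)) s := by
  unfold Helper35TB.cr
  exact ((Complex.continuous_re.comp_continuousOn hf).mul
    (Complex.continuous_im.comp_continuousOn hg)).sub
    ((Complex.continuous_im.comp_continuousOn hf).mul (Complex.continuous_re.comp_continuousOn hg))

lemma contLap {κ : ℝ} {f g : ℝ → ℂ} {s : Set ℝ} (hf : ContinuousOn f s) (hg : ContinuousOn g s)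
    (h0 : ∀ t ∈ s, f t ≠ 0) : ContinuousOn (fun t => Helper35TB.Lap κ (f t) (g t)) s := by
  have e : (fun t => Helper35TB.Lap κ (f t) (g t)) = fun t =>
      -I * ((Helper35TB.cr (f t) (g t) / κ : ℝ) : ℂ) * g t - ((‖f t‖⁻¹ : ℝ) : ℂ) * f t := by
    funext t
    apply Complex.ext
    · simp only [Helper35TB.Lap, mul_re, neg_re, neg_im, I_re, I_im, sub_re, mul_im, ofReal_re,
        ofReal_im]
      ring
    · simp only [Helper35TB.Lap, mul_re, neg_re, neg_im, I_re, I_im, sub_im, mul_im, ofReal_re,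
        ofReal_im]
      ring
  rw [e]
  apply ContinuousOn.sub
  · apply ContinuousOn.mul _ hg
    apply continuousOn_const.mul
    exact Complex.continuous_ofReal.comp_continuousOn ((contCr hf hg).div_const κ)
  · apply ContinuousOn.mul _ hf
    apply Complex.continuous_ofReal.comp_continuousOn
    exact hf.norm.inv₀ (fun t ht => norm_ne_zero_iff.mpr (h0 t ht))

lemma contApr {κ : ℝ} {f g h : ℝ → ℂ} {s : Set ℝ} (hf : ContinuousOn f s) (hg : ContinuousOn g s)
    (hh : ContinuousOn h s) : ContinuousOn (fun t => Apr κ (f t) (g t) (h t)) s := by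
  unfold Apr
  apply continuousOn_const.mul
  apply ContinuousOn.add
  · exact (Complex.continuous_ofReal.comp_continuousOn ((contCr hf hh).div_const κ)).mul hg
  · exact (Complex.continuous_ofReal.comp_continuousOn ((contCr hf hg).div_const κ)).mul hh

end

end Pool.Agent.HM.H54F
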