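import Pool.Agent.Helper49_HM.Top

/-!
# Free homotopies of loops on the circle from conjugate path classes
-/

set_option autoImplicit false

namespace Pool.Agent.HM.H54

open Set Topology unitInterval

noncomputable section

variable {X : Type} [TopologicalSpace X]

/-- A homotopy of closed paths gives a free homotopy on the circle. -/
theorem free_of_square (δ₀ δ₁ : C(AddCircle (1 : ℝ), X)) (f₀ f₁ : C(I, X))
    (h₀ : ∀ t : I, f₀ t = δ₀ ((t : ℝ) : AddCircle (1 : ℝ)))
    (h₁ : ∀ t : I, f₁ t = δ₁ ((t : ℝ) : AddCircle (1 : ℝ)))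
    (h : ContinuousMap.HomotopicWith f₀ f₁ (fun f => f 0 = f 1)) : δ₀.Homotopic δ₁ := by
  obtain ⟨F⟩ := h
  have hp : ∀ s : I, F (s, 0) = F (s, 1) := fun s => F.prop s
  set K : C(I, C(I, X)) := ContinuousMap.curry
    ⟨fun p : I × I => F (p.2, p.1), F.continuous.comp (by fun_prop)⟩ with hK
  set G : ℝ → C(I, X) := fun t => K (projIcc 0 1 zero_le_one t) with hG
  have hGc : Continuous G := K.continuous.comp continuous_projIcc
  have hG01 : G 0 = G (0 + 1) := by
    ext s
    simp only [hG, hK, ContinuousMap.curry_apply, ContinuousMap.coe_mk, zero_add]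
    rw [projIcc_left, projIcc_right]
    exact hp s
  have hc : Continuous (AddCircle.liftIco (1 : ℝ) 0 G) :=
    AddCircle.liftIco_continuous hG01 hGc.continuousOn
  set L : C(AddCircle (1 : ℝ), C(I, X)) := ⟨_, hc⟩ with hL
  have hLt : ∀ t ∈ Ico (0 : ℝ) 1, ∀ s, L (t : AddCircle (1 : ℝ)) s
      = F (s, projIcc 0 1 zero_le_one t) := by
    intro t ht s
    have : AddCircle.liftIco (1 : ℝ) 0 G (t : AddCircle (1 : ℝ)) = G t :=
      AddCircle.liftIco_zero_coe_apply ht
    show (AddCircle.liftIco (1 : ℝ) 0 G (t : AddCircle (1 : ℝ))) s = _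
    rw [this]
    rfl
  have hrep : ∀ x : AddCircle (1 : ℝ), ∃ t ∈ Ico (0 : ℝ) 1, (t : AddCircle (1 : ℝ)) = x := by
    intro x
    haveI : Fact ((0 : ℝ) < 1) := ⟨one_pos⟩
    have := AddCircle.coe_image_Ico_eq (1 : ℝ) 0
    have hx : x ∈ ((↑) '' Ico (0 : ℝ) (0 + 1) : Set (AddCircle (1 : ℝ))) := by
      rw [this]; trivial
    obtain ⟨t, ht, rfl⟩ := hx
    exact ⟨t, by simpa using ht, rfl⟩
  refine ⟨⟨⟨fun p => L p.2 p.1, ?_⟩, ?_, ?_⟩⟩
  · exact (ContinuousMap.continuous_uncurry_of_continuous L).comp continuous_swap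
  · intro x
    obtain ⟨t, ht, rfl⟩ := hrep x
    show L (t : AddCircle (1 : ℝ)) 0 = _
    rw [hLt t ht, F.apply_zero, h₀, projIcc_of_mem zero_le_one (Ico_subset_Icc_self ht)]
  · intro x
    obtain ⟨t, ht, rfl⟩ := hrep x
    show L (t : AddCircle (1 : ℝ)) 1 = _
    rw [hLt t ht, F.apply_one, h₁, projIcc_of_mem zero_le_one (Ico_subset_Icc_self ht)]

/-- homotopic paths are freely homotopic -/
theorem hw_of_homotopic {x y : X} {P Q : Path x y} (h : P.Homotopic Q) (hxy : x = y) :
    ContinuousMap.HomotopicWith (P : C(I, X)) (Q : C(I, X)) (fun f => f 0 = f 1) := by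
  obtain ⟨F⟩ := h
  refine ⟨⟨F.toHomotopy, fun t => ?_⟩⟩
  show F (t, 0) = F (t, 1)
  rw [F.source, F.target, hxy]

/-- the paths `R|[s,1]` -/
def tl {x y : X} (R : Path x y) (s : I) : Path (R s) y :=
  (R.subpath s 1).cast rfl R.target.symm

theorem tl_cont {x y : X} (R : Path x y) : Continuous fun p : I × I => tl R p.1 p.2 :=
  R.subpath_continuous_family.comp
    (show Continuous fun p : I × I => (p.1, (1 : I), p.2) by fun_prop)

theorem tl_zero {x y : X} (R : Path x y) (t : I) : tl R 0 t = R t := by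
  simp [tl, Path.subpath]

theorem tl_one {x y : X} (R : Path x y) (t : I) : tl R 1 t = y := by
  simp [tl, Path.subpath]

theorem conj_cont {x y : X} (Q : Path y y) (R : Path x y) :
    Continuous fun p : I × I => ((tl R p.1).trans (Q.trans (tl R p.1).symm)) p.2 := by
  have hQ0 : Continuous fun p : I × I => Q p.2 := Q.continuous.comp continuous_snd
  exact Path.trans_continuous_family (fun s => tl R s) (tl_cont R) (fun s => Q.trans (tl R s).symm)
    (Path.trans_continuous_family (fun _ => Q) hQ0 (fun s => (tl R s).symm)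
      (Path.symm_continuous_family (fun s => tl R s) (tl_cont R)))

theorem conj_zero {x y : X} (Q : Path y y) (R : Path x y) (t : I) :
    ((tl R 0).trans (Q.trans (tl R 0).symm)) t = (R.trans (Q.trans R.symm)) t := by
  simp only [Path.trans_apply, Path.symm_apply, Function.comp_apply, tl_zero]

theorem conj_one {x y : X} (Q : Path y y) (R : Path x y) (t : I) :
    ((tl R 1).trans (Q.trans (tl R 1).symm)) t =
      ((Path.refl y).trans (Q.trans (Path.refl y).symm)) t := by
  simp only [Path.trans_apply, Path.symm_apply, Function.comp_apply, tl_one, Path.refl_apply]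

/-- conjugate paths are freely homotopic -/
theorem hw_of_conj {x y : X} (P : Path x x) (Q : Path y y) (R : Path x y)
    (h : P.Homotopic (R.trans (Q.trans R.symm))) :
    ContinuousMap.HomotopicWith (P : C(I, X)) (Q : C(I, X)) (fun f => f 0 = f 1) := by
  refine (hw_of_homotopic h rfl).trans ?_
  have key : ContinuousMap.HomotopicWith (R.trans (Q.trans R.symm) : C(I, X))
      ((Path.refl y).trans (Q.trans (Path.refl y).symm) : C(I, X)) (fun f => f 0 = f 1) := by
    refine ⟨⟨⟨⟨_, conj_cont Q R⟩, conj_zero Q R, conj_one Q R⟩, fun s => ?_⟩⟩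
    show ((tl R s).trans (Q.trans (tl R s).symm)) 0 = ((tl R s).trans (Q.trans (tl R s).symm)) 1
    rw [Path.source, Path.target]
  refine key.trans (hw_of_homotopic ?_ rfl)
  rw [← Path.Homotopic.Quotient.eq]
  simp

/-- free homotopy from an equation in the groupoid -/
theorem free_of_conj (δ₀ δ₁ : C(AddCircle (1 : ℝ), X)) {x y : X} (P : Path x x) (Q : Path y y)
    (h₀ : ∀ t : I, P t = δ₀ ((t : ℝ) : AddCircle (1 : ℝ)))
    (h₁ : ∀ t : I, Q t = δ₁ ((t : ℝ) : AddCircle (1 : ℝ)))
    (c : Path.Homotopic.Quotient x y)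
    (h : Path.Homotopic.Quotient.mk P = c.trans ((Path.Homotopic.Quotient.mk Q).trans c.symm)) :
    δ₀.Homotopic δ₁ := by
  obtain ⟨R, rfl⟩ := Path.Homotopic.Quotient.mk_surjective c
  refine free_of_square δ₀ δ₁ (P : C(I, X)) (Q : C(I, X)) h₀ h₁ (hw_of_conj P Q R ?_)
  rw [← Path.Homotopic.Quotient.eq, h]
  simp

end

end Pool.Agent.HM.H54
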