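import Pool.Agent.Helper54_HM.Std
import Mathlib.Analysis.Complex.CoveringMap
import Mathlib.Topology.Homotopy.Lifting

/-!
# Generators, straight paths, paths in a half plane
-/

set_option autoImplicit false

namespace Pool.Agent.HM.H54

open Complex Set Topology unitInterval

noncomputable section

/-- the base point -/
def bp : C01 := ⟨1 / 2, by
  refine ⟨by norm_num, fun h => ?_⟩
  have := congrArg Complex.re h
  norm_num at this⟩

/-- real logarithm as a complex number -/
def lg (x : ℝ) : ℂ := (Real.log x : ℂ)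

theorem lg_re {x : ℝ} (hx : x ∈ Ioo (0 : ℝ) 1) : (lg x).re < 0 := by
  simp only [lg, ofReal_re]
  exact Real.log_neg hx.1 hx.2

theorem exp_lg {x : ℝ} (hx : 0 < x) : exp (lg x) = x := by
  rw [lg, ← ofReal_exp, Real.exp_log hx]

/-- `x` or `1 - x` -/
def sr (e : Bool) (x : ℝ) : ℝ := if e then x else 1 - x

theorem sr_mem (e : Bool) {x : ℝ} (hx : x ∈ Ioo (0 : ℝ) 1) : sr e x ∈ Ioo (0 : ℝ) 1 := by
  cases e
  · simp only [sr, mem_Ioo] at *
    exact ⟨by simp; linarith, by simp; linarith⟩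
  · simpa [sr] using hx

theorem sg_ofReal (e : Bool) (x : ℝ) : sg e (x : ℂ) = (sr e x : ℝ) := by
  cases e <;> simp [sg, sr]

theorem sg_sr (e : Bool) (x : ℝ) : sg e ((sr e x : ℝ) : ℂ) = x := by
  rw [← sg_ofReal, sg_sg]

theorem sr_half (e : Bool) : sr e (1 / 2) = 1 / 2 := by
  cases e <;> norm_num [sr]

theorem half_mem : (1 / 2 : ℝ) ∈ Ioo (0 : ℝ) 1 := by constructor <;> norm_num

theorem bp_coe : (bp : ℂ) = ((1 / 2 : ℝ) : ℂ) := by simp [bp]

theorem sg_exp_half (e : Bool) : sg e (exp (lg (1 / 2))) = bp := by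
  rw [exp_lg (by norm_num), bp_coe, sg_ofReal, sr_half]

theorem shift_re (w : ℂ) (n : ℤ) : (w + n * (2 * Real.pi * Complex.I)).re = w.re := by simp

theorem exp_shift (w : ℂ) (n : ℤ) : exp (w + n * (2 * Real.pi * Complex.I)) = exp w := by
  rw [Complex.exp_add, Complex.exp_int_mul_two_pi_mul_I, mul_one]

theorem al_exists (e : Bool) (n : ℤ) : ∃ c : Path.Homotopic.Quotient bp bp,
    Is e (lg (1 / 2)) (lg (1 / 2) + n * (2 * Real.pi * Complex.I)) c :=
  Is.exists (lg_re half_mem) (by rw [shift_re]; exact lg_re half_mem) (sg_exp_half e)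
    (by rw [exp_shift]; exact sg_exp_half e)

/-- the class of `n` turns around `0` (`e = true`) or `1` (`e = false`) -/
def al (e : Bool) (n : ℤ) : Path.Homotopic.Quotient bp bp := (al_exists e n).choose

theorem al_is (e : Bool) (n : ℤ) :
    Is e (lg (1 / 2)) (lg (1 / 2) + n * (2 * Real.pi * Complex.I)) (al e n) :=
  (al_exists e n).choose_spec

theorem al_zero (e : Bool) : al e 0 = Path.Homotopic.Quotient.refl bp := by
  have h := al_is e 0
  simp only [Int.cast_zero, zero_mul, add_zero] at h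
  exact h.uniq (Is.refl (lg_re half_mem) (sg_exp_half e))

/-- straight path in the strip -/
def linP (u v : C01) (hu : 0 < (u : ℂ).re ∧ (u : ℂ).re < 1) (hv : 0 < (v : ℂ).re ∧ (v : ℂ).re < 1) :
    Path u v where
  toFun t := ⟨(1 - (t : ℝ) : ℂ) * u + (t : ℝ) * v, by
    have hs0 := t.2.1
    have hs1 := t.2.2
    have h1 : ((1 - (t : ℝ) : ℂ) * u + (t : ℝ) * v).re
        = (1 - (t : ℝ)) * (u : ℂ).re + (t : ℝ) * (v : ℂ).re := by simp
    refine mem_of (fun h => ?_) ?_
    · rw [h] at h1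
      simp only [zero_re] at h1
      rcases hs0.eq_or_lt with h0 | h0
      · rw [← h0] at h1; linarith [hu.1]
      · nlinarith [hu.1, hv.1, mul_pos h0 hv.1, mul_nonneg (sub_nonneg.2 hs1) hu.1.le]
    · rw [h1]
      rcases hs0.eq_or_lt with h0 | h0
      · rw [← h0]; linarith [hu.2]
      · nlinarith [hu.2, hv.2, mul_pos h0 (sub_pos.2 hv.2),
          mul_nonneg (sub_nonneg.2 hs1) (sub_pos.2 hu.2).le]⟩
  continuous_toFun := by
    refine Continuous.subtype_mk ?_ _
    fun_prop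
  source' := by apply Subtype.ext; simp
  target' := by apply Subtype.ext; simp

theorem linP_re (u v : C01) (hu : 0 < (u : ℂ).re ∧ (u : ℂ).re < 1)
    (hv : 0 < (v : ℂ).re ∧ (v : ℂ).re < 1) (t : I) :
    ((linP u v hu hv t : C01) : ℂ).re = (1 - (t : ℝ)) * (u : ℂ).re + (t : ℝ) * (v : ℂ).re := by
  show ((1 - (t : ℝ) : ℂ) * u + (t : ℝ) * v).re = _
  simp

/-- the straight path between real points is in the standard class for both generators -/
theorem linP_is (e : Bool) (u v : C01) (hu : 0 < (u : ℂ).re ∧ (u : ℂ).re < 1)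
    (hv : 0 < (v : ℂ).re ∧ (v : ℂ).re < 1) {x y : ℝ} (hx : (u : ℂ) = x) (hy : (v : ℂ) = y) :
    Is e (lg (sr e x)) (lg (sr e y)) (Path.Homotopic.Quotient.mk (linP u v hu hv)) := by
  have hx' : x ∈ Ioo (0 : ℝ) 1 := by rw [hx] at hu; simpa using hu
  have hy' : y ∈ Ioo (0 : ℝ) 1 := by rw [hy] at hv; simpa using hv
  have hz : ∀ t : I, (1 - (t : ℝ)) * x + (t : ℝ) * y ∈ Ioo (0 : ℝ) 1 := by
    intro t
    have hs0 := t.2.1
    have hs1 := t.2.2
    have := (convex_Ioo (0 : ℝ) 1) hx' hy' (sub_nonneg.2 hs1) hs0 (by ring)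
    simpa using this
  have hc : Continuous fun t : I => lg (sr e ((1 - (t : ℝ)) * x + (t : ℝ) * y)) := by
    unfold lg
    refine continuous_ofReal.comp (Continuous.log ?_ fun t => (sr_mem e (hz t)).1.ne')
    cases e
    · simp only [sr]; simp only [Bool.false_eq_true, if_false]; fun_prop
    · simp only [sr]; simp only [if_true]; fun_prop
  refine ⟨_, rfl, ⟨⟨_, hc⟩, by simp, by simp⟩, fun t => ?_, fun t => ?_⟩
  · exact lg_re (sr_mem e (hz t))
  · show sg e (exp (lg (sr e ((1 - (t : ℝ)) * x + (t : ℝ) * y)))) = (1 - (t : ℝ) : ℂ) * u + (t : ℝ) * v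
    rw [exp_lg (sr_mem e (hz t)).1, sg_sr, hx, hy]
    push_cast
    ring

theorem bp_strip : 0 < (bp : ℂ).re ∧ (bp : ℂ).re < 1 := by
  rw [bp_coe, ofReal_re]; constructor <;> norm_num

/-- classes with given winding number, in terms of the generators -/
theorem eq_al (e : Bool) (n : ℤ) (u v : C01) (hu : 0 < (u : ℂ).re ∧ (u : ℂ).re < 1)
    (hv : 0 < (v : ℂ).re ∧ (v : ℂ).re < 1) {x y : ℝ} (hx : (u : ℂ) = x) (hy : (v : ℂ) = y)
    (c : Path.Homotopic.Quotient u v)
    (h : Is e (lg (sr e x)) (lg (sr e y) + n * (2 * Real.pi * Complex.I)) c) :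
    c = (Path.Homotopic.Quotient.mk (linP u bp hu bp_strip)).trans
      ((al e n).trans (Path.Homotopic.Quotient.mk (linP v bp hv bp_strip)).symm) := by
  have h1 := linP_is e u bp hu bp_strip hx bp_coe
  have h2 := (linP_is e v bp hv bp_strip hy bp_coe).symm.shift n
  rw [sr_half] at h1 h2
  exact h.uniq (h1.trans ((al_is e n).trans h2))

end

end Pool.Agent.HM.H54
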