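import Pool.Agent.Helper54_HM.Gen

/-!
# Paths in a half plane without a point
-/

set_option autoImplicit false

namespace Pool.Agent.HM.H54

open Complex Set Topology unitInterval

noncomputable section

theorem scale_mem {z : ℂ} (h0 : z ≠ 0) (h1 : z.re < 1) {k : ℝ} (hk0 : 0 < k) (hk1 : k ≤ 1) :
    ((k : ℝ) : ℂ) * z ≠ 0 ∧ (((k : ℝ) : ℂ) * z).re < 1 := by
  refine ⟨mul_ne_zero (by exact_mod_cast hk0.ne') h0, ?_⟩
  have : (((k : ℝ) : ℂ) * z).re = k * z.re := by simp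
  rw [this]
  rcases le_or_gt z.re 0 with h | h
  · nlinarith
  · nlinarith

/-- scaling factor -/
def lam (z : ℂ) : ℝ := min 1 ((1 / 2) / ‖z‖)

theorem lam_pos {z : ℂ} (h0 : z ≠ 0) : 0 < lam z := by
  unfold lam
  have := norm_pos_iff.2 h0
  positivity

theorem lam_le (z : ℂ) : lam z ≤ 1 := min_le_left _ _

theorem lam_norm {z : ℂ} (h0 : z ≠ 0) : ‖(lam z : ℂ) * z‖ ≤ 1 / 2 := by
  have hz := norm_pos_iff.2 h0
  rw [norm_mul, Complex.norm_real, Real.norm_of_nonneg (lam_pos h0).le]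
  have : lam z ≤ (1 / 2) / ‖z‖ := min_le_right _ _
  calc lam z * ‖z‖ ≤ (1 / 2) / ‖z‖ * ‖z‖ := by gcongr
    _ = 1 / 2 := by field_simp

theorem lam_half {z : ℂ} (h : ‖z‖ = 1 / 2) : lam z = 1 := by
  unfold lam
  rw [h]
  norm_num

theorem half_class (e : Bool) (Q : Path bp bp) (h : ∀ t, (sg e (Q t : ℂ)).re < 1) :
    ∃ n : ℤ, Path.Homotopic.Quotient.mk Q = al e n := by
  set z : I → ℂ := fun t => sg e (Q t : ℂ) with hz
  have hzc : Continuous z := (sg_cont e).comp (continuous_subtype_val.comp Q.continuous)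
  have hz0 : ∀ t, z t ≠ 0 := fun t => (sg_mem e (Q t).2).1
  have hlc : Continuous fun t => lam (z t) := by
    unfold lam
    exact continuous_const.min (continuous_const.div hzc.norm fun t => (norm_pos_iff.2 (hz0 t)).ne')
  have hbp : sg e (bp : ℂ) = ((1 / 2 : ℝ) : ℂ) := by rw [bp_coe, sg_ofReal, sr_half]
  have hzs : z 0 = ((1 / 2 : ℝ) : ℂ) := by simp only [hz, Q.source, hbp]
  have hzt : z 1 = ((1 / 2 : ℝ) : ℂ) := by simp only [hz, Q.target, hbp]
  have hk : ∀ s t : I, 0 < 1 - (s : ℝ) + s * lam (z t) ∧ 1 - (s : ℝ) + s * lam (z t) ≤ 1 := by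
    intro s t
    have h1 := lam_pos (hz0 t)
    have h2 := lam_le (z t)
    have hs0 := s.2.1
    have hs1 := s.2.2
    constructor
    · rcases hs0.eq_or_lt with h0 | h0
      · rw [← h0]; norm_num
      · nlinarith
    · nlinarith
  have hmem : ∀ s t : I, sg e (((1 - (s : ℝ) + s * lam (z t) : ℝ) : ℂ) * z t) ∈ C01 := by
    intro s t
    have := scale_mem (hz0 t) (h t) (hk s t).1 (hk s t).2
    exact sg_mem e (mem_of this.1 this.2)
  have hKc : Continuous fun p : I × I =>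
      (⟨sg e (((1 - (p.1 : ℝ) + p.1 * lam (z p.2) : ℝ) : ℂ) * z p.2), hmem p.1 p.2⟩ : C01) := by
    refine Continuous.subtype_mk ((sg_cont e).comp ?_) _
    have h1 : Continuous fun p : I × I => z p.2 := hzc.comp continuous_snd
    have h2 : Continuous fun p : I × I => lam (z p.2) := hlc.comp continuous_snd
    refine Continuous.mul (continuous_ofReal.comp ?_) h1
    fun_prop
  have hnh : ‖((1 / 2 : ℝ) : ℂ)‖ = 1 / 2 := by
    rw [Complex.norm_real]; norm_num
  have hl0 : lam (z 0) = 1 := lam_half (by rw [hzs, hnh])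
  have hl1 : lam (z 1) = 1 := lam_half (by rw [hzt, hnh])
  have hK0 : ∀ s : I, sg e (((1 - (s : ℝ) + s * lam (z 0) : ℝ) : ℂ) * z 0) = bp := by
    intro s
    rw [hl0, hzs]
    have : (((1 - (s : ℝ) + s * 1 : ℝ) : ℂ)) = 1 := by push_cast; ring
    rw [this, one_mul, sg_ofReal, sr_half, bp_coe]
  have hK1 : ∀ s : I, sg e (((1 - (s : ℝ) + s * lam (z 1) : ℝ) : ℂ) * z 1) = bp := by
    intro s
    rw [hl1, hzt]
    have : (((1 - (s : ℝ) + s * 1 : ℝ) : ℂ)) = 1 := by push_cast; ring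
    rw [this, one_mul, sg_ofReal, sr_half, bp_coe]
  set Q' : Path bp bp := ⟨⟨fun t => ⟨sg e (((1 - ((1 : I) : ℝ) + (1 : I) * lam (z t) : ℝ) : ℂ) * z t),
    hmem 1 t⟩, hKc.comp (Continuous.prodMk continuous_const continuous_id)⟩,
    Subtype.ext (hK0 1), Subtype.ext (hK1 1)⟩ with hQ'
  have hQQ' : Path.Homotopic.Quotient.mk Q = Path.Homotopic.Quotient.mk Q' := by
    rw [Path.Homotopic.Quotient.eq]
    refine ⟨⟨⟨⟨_, hKc⟩, fun t => ?_, fun t => rfl⟩, fun s t ht => ?_⟩⟩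
    · apply Subtype.ext
      show sg e (((1 - ((0 : I) : ℝ) + (0 : I) * lam (z t) : ℝ) : ℂ) * z t) = (Q t : ℂ)
      have : ((1 - ((0 : I) : ℝ) + (0 : I) * lam (z t) : ℝ) : ℂ) = 1 := by
        simp
      rw [this, one_mul, hz, sg_sg]
    · apply Subtype.ext
      rcases ht with rfl | ht
      · show sg e (((1 - (s : ℝ) + s * lam (z 0) : ℝ) : ℂ) * z 0) = (Q 0 : ℂ)
        rw [hK0 s, Q.source]
      · rw [mem_singleton_iff] at ht
        subst ht
        show sg e (((1 - (s : ℝ) + s * lam (z 1) : ℝ) : ℂ) * z 1) = (Q 1 : ℂ)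
        rw [hK1 s, Q.target]
  -- lift
  have hfc : Continuous fun t : I => (⟨(lam (z t) : ℂ) * z t,
      mul_ne_zero (by exact_mod_cast (lam_pos (hz0 t)).ne') (hz0 t)⟩ : {w : ℂ // w ≠ 0}) :=
    Continuous.subtype_mk ((continuous_ofReal.comp hlc).mul hzc) _
  have hstart : (⟨_, hfc⟩ : C(I, {w : ℂ // w ≠ 0})) 0
      = (fun w : ℂ => (⟨_, w.exp_ne_zero⟩ : {w : ℂ // w ≠ 0})) (lg (1 / 2)) := by
    apply Subtype.ext
    show (lam (z 0) : ℂ) * z 0 = exp (lg (1 / 2))
    rw [hl0, hzs, exp_lg (by norm_num)]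
    simp
  set G := Complex.isCoveringMap_exp.liftPath ⟨_, hfc⟩ (lg (1 / 2)) hstart with hG
  have hGl : ∀ t, exp (G t) = (lam (z t) : ℂ) * z t := by
    intro t
    have := congrFun (Complex.isCoveringMap_exp.liftPath_lifts ⟨_, hfc⟩ (lg (1 / 2)) hstart) t
    exact congrArg Subtype.val this
  have hG0 : G 0 = lg (1 / 2) := Complex.isCoveringMap_exp.liftPath_zero _ _ _
  have hG1 : ∃ n : ℤ, G 1 = lg (1 / 2) + n * (2 * Real.pi * Complex.I) := by
    rw [← Complex.exp_eq_exp_iff_exists_int, hGl, hl1, hzt, exp_lg (by norm_num)]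
    simp
  obtain ⟨n, hn⟩ := hG1
  refine ⟨n, ?_⟩
  rw [hQQ']
  refine Is.uniq (e := e) ⟨Q', rfl, ⟨G, hG0, hn⟩, fun t => ?_, fun t => ?_⟩ (al_is e n)
  · show (G t).re < 0
    have h1 := lam_norm (hz0 t)
    rw [← hGl, Complex.norm_exp] at h1
    by_contra h2
    have := Real.one_le_exp (not_lt.1 h2)
    linarith
  · show sg e (exp (G t)) = sg e (((1 - ((1 : I) : ℝ) + (1 : I) * lam (z t) : ℝ) : ℂ) * z t)
    rw [hGl]
    simp

/-- joining to the base point inside a half plane -/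
theorem join_one (e : Bool) (u : C01) (h : (sg e (u : ℂ)).re < 1) :
    ∃ R : Path u bp, ∀ t, (sg e (R t : ℂ)).re < 1 := by
  set z : ℂ := sg e (u : ℂ) with hz
  have hz0 : z ≠ 0 := (sg_mem e u.2).1
  have hl := lam_pos hz0
  have hl1 := lam_le z
  have hw0 : (lam z : ℂ) * z ≠ 0 := mul_ne_zero (by exact_mod_cast hl.ne') hz0
  have hwn := lam_norm hz0
  set w : ℂ := (lam z : ℂ) * z with hw
  have hk : ∀ t : I, 0 < 1 - (t : ℝ) + t * lam z ∧ 1 - (t : ℝ) + t * lam z ≤ 1 := by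
    intro s
    have hs0 := s.2.1
    have hs1 := s.2.2
    constructor
    · rcases hs0.eq_or_lt with h0 | h0
      · rw [← h0]; norm_num
      · nlinarith
    · nlinarith
  have hs : ∀ t : I, (((1 - (t : ℝ) + t * lam z : ℝ) : ℂ) * z) ≠ 0 ∧
      (((1 - (t : ℝ) + t * lam z : ℝ) : ℂ) * z).re < 1 := fun t =>
    scale_mem hz0 h (hk t).1 (hk t).2
  have hlw : exp (log w) = w := exp_log hw0
  have hlre : (log w).re < 0 := by
    rw [log_re]
    exact Real.log_neg (norm_pos_iff.2 hw0) (by linarith)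
  have hre : ∀ t : I, ((1 - (t : ℝ) : ℂ) * log w + (t : ℝ) * lg (1 / 2)).re < 0 := by
    intro t
    have h1 : ((1 - (t : ℝ) : ℂ) * log w + (t : ℝ) * lg (1 / 2)).re
        = (1 - (t : ℝ)) * (log w).re + (t : ℝ) * (lg (1 / 2)).re := by
      simp
    rw [h1]
    have hs0 := t.2.1
    have hs1 := t.2.2
    have := lg_re half_mem
    rcases hs0.eq_or_lt with h0 | h0
    · rw [← h0]; linarith
    · nlinarith
  have he1 : ∀ x : ℂ, x.re < 0 → (exp x).re < 1 := by
    intro x hx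
    have h1 := Complex.re_le_norm (exp x)
    rw [Complex.norm_exp] at h1
    have h2 := Real.exp_lt_one_iff.2 hx
    linarith
  set v : C01 := ⟨sg e w, sg_mem e (mem_of hw0 (scale_mem hz0 h hl hl1).2)⟩ with hv
  let R1 : Path u v := ⟨⟨fun t => ⟨sg e (((1 - (t : ℝ) + t * lam z : ℝ) : ℂ) * z),
      sg_mem e (mem_of (hs t).1 (hs t).2)⟩,
      Continuous.subtype_mk ((sg_cont e).comp (by fun_prop)) _⟩,
      Subtype.ext (by simp [hz, sg_sg]), Subtype.ext (by simp [hv, hw])⟩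
  let R2 : Path v bp := ⟨⟨fun t => ⟨sg e (exp ((1 - (t : ℝ) : ℂ) * log w + (t : ℝ) * lg (1 / 2))),
      sg_mem e (exp_mem (hre t))⟩,
      Continuous.subtype_mk ((sg_cont e).comp (by fun_prop)) _⟩,
      Subtype.ext (by simp [hv, hlw]), Subtype.ext (by simpa using sg_exp_half e)⟩
  refine ⟨R1.trans R2, fun t => ?_⟩
  rw [Path.trans_apply]
  split_ifs
  · show (sg e (sg e _)).re < 1
    rw [sg_sg]
    exact (hs _).2
  · show (sg e (sg e _)).re < 1
    rw [sg_sg]
    exact he1 _ (hre _)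

theorem sg_re (e : Bool) (z : ℂ) : (sg e z).re = sr e z.re := by
  cases e <;> simp [sg, sr]

/-- joining to the base point inside both half planes, if possible -/
theorem join_both (u : C01) :
    ∃ R : Path u bp, ∀ e : Bool, (sg e (u : ℂ)).re < 1 → ∀ t, (sg e (R t : ℂ)).re < 1 := by
  by_cases h1 : (u : ℂ).re < 1
  · by_cases h0 : 0 < (u : ℂ).re
    · refine ⟨linP u bp ⟨h0, h1⟩ bp_strip, fun e _ t => ?_⟩
      rw [sg_re, linP_re]
      have hs0 := t.2.1
      have hs1 := t.2.2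
      have hb := bp_strip
      have hz : (1 - (t : ℝ)) * (u : ℂ).re + (t : ℝ) * (bp : ℂ).re ∈ Ioo (0 : ℝ) 1 := by
        have := (convex_Ioo (0 : ℝ) 1) ⟨h0, h1⟩ ⟨hb.1, hb.2⟩ (sub_nonneg.2 hs1) hs0 (by ring)
        simpa using this
      exact (sr_mem e hz).2
    · obtain ⟨R, hR⟩ := join_one true u (by simpa [sg] using h1)
      refine ⟨R, fun e he => ?_⟩
      cases e
      · exfalso
        rw [sg_re] at he
        simp only [sr, Bool.false_eq_true, if_false] at he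
        linarith
      · exact hR
  · obtain ⟨R, hR⟩ := join_one false u (by
      rw [sg_re]
      simp only [sr, Bool.false_eq_true, if_false]
      linarith)
    refine ⟨R, fun e he => ?_⟩
    cases e
    · exact hR
    · exact absurd (by simpa [sg] using he) h1

end

end Pool.Agent.HM.H54
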