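import Pool.Agent.Helper54_HM.Half

/-!
# Paths in the classes `ClassA`, `ClassB`
-/

set_option autoImplicit false

namespace Pool.Agent.HM.H54

open Complex Set Topology unitInterval

noncomputable section

/-- lift of the standard path -/
def gs (x y : ℝ) (n : ℤ) (t : ℝ) : ℂ :=
  lg (x + min (3 * t) 1 * (1 / 4 - x)) + (lg (1 / 4 + max (3 * t - 2) 0 * (y - 1 / 4)) - lg (1 / 4))
    + n * (2 * Real.pi * Complex.I) * ((max 0 (min (3 * t - 1) 1) : ℝ) : ℂ)

theorem quarter_mem : (1 / 4 : ℝ) ∈ Ioo (0 : ℝ) 1 := by constructor <;> norm_num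

theorem conv_mem {x y a : ℝ} (hx : x ∈ Ioo (0 : ℝ) 1) (hy : y ∈ Ioo (0 : ℝ) 1) (ha0 : 0 ≤ a)
    (ha1 : a ≤ 1) : x + a * (y - x) ∈ Ioo (0 : ℝ) 1 := by
  have := (convex_Ioo (0 : ℝ) 1) hx hy (sub_nonneg.2 ha1) ha0 (by ring)
  have e : x + a * (y - x) = (1 - a) • x + a • y := by simp; ring
  rw [e]; exact this

theorem gs_a {x t : ℝ} (hx : x ∈ Ioo (0 : ℝ) 1) (ht : t ∈ Icc (0 : ℝ) 1) :
    x + min (3 * t) 1 * (1 / 4 - x) ∈ Ioo (0 : ℝ) 1 :=
  conv_mem hx quarter_mem (le_min (by linarith [ht.1]) zero_le_one) (min_le_right _ _)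

theorem gs_b {y t : ℝ} (hy : y ∈ Ioo (0 : ℝ) 1) (ht : t ∈ Icc (0 : ℝ) 1) :
    1 / 4 + max (3 * t - 2) 0 * (y - 1 / 4) ∈ Ioo (0 : ℝ) 1 :=
  conv_mem quarter_mem hy (le_max_right _ _) (max_le (by linarith [ht.2]) zero_le_one)

theorem gs_cont {x y : ℝ} (hx : x ∈ Ioo (0 : ℝ) 1) (hy : y ∈ Ioo (0 : ℝ) 1) (n : ℤ) :
    Continuous fun t : I => gs x y n t := by
  unfold gs lg
  have h1 : Continuous fun t : I => Real.log (x + min (3 * (t : ℝ)) 1 * (1 / 4 - x)) :=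
    Continuous.log (by fun_prop) fun t => (gs_a hx t.2).1.ne'
  have h2 : Continuous fun t : I => Real.log (1 / 4 + max (3 * (t : ℝ) - 2) 0 * (y - 1 / 4)) :=
    Continuous.log (by fun_prop) fun t => (gs_b hy t.2).1.ne'
  have h3 : Continuous fun t : I => max 0 (min (3 * (t : ℝ) - 1) 1) := by fun_prop
  exact ((continuous_ofReal.comp h1).add ((continuous_ofReal.comp h2).sub continuous_const)).add
    (continuous_const.mul (continuous_ofReal.comp h3))

theorem gs_re {x y : ℝ} (hx : x ∈ Ioo (0 : ℝ) 1) (hy : y ∈ Ioo (0 : ℝ) 1) (n : ℤ) {t : ℝ}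
    (ht : t ∈ Icc (0 : ℝ) 1) : (gs x y n t).re < 0 := by
  have h0 : ∀ c : ℝ, ((n : ℂ) * (2 * Real.pi * Complex.I) * (c : ℂ)).re = 0 := by intro c; simp
  unfold gs
  rw [add_re, h0, add_zero, add_re, sub_re]
  rcases le_or_gt t (2 / 3) with h | h
  · have : max (3 * t - 2) 0 = 0 := max_eq_right (by linarith)
    rw [this, zero_mul, add_zero, sub_self, add_zero]
    exact lg_re (gs_a hx ht)
  · have : min (3 * t) 1 = 1 := min_eq_right (by linarith)
    rw [this]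
    have e : x + 1 * (1 / 4 - x) = 1 / 4 := by ring
    rw [e]
    have := lg_re (gs_b hy ht)
    linarith

theorem gs_exp {x y : ℝ} (hx : x ∈ Ioo (0 : ℝ) 1) (hy : y ∈ Ioo (0 : ℝ) 1) (n : ℤ) {t : ℝ}
    (ht : t ∈ Icc (0 : ℝ) 1) : exp (gs x y n t) = stdA x y n t := by
  unfold gs stdA
  split_ifs with h1 h2
  · have e1 : min (3 * t) 1 = 3 * t := min_eq_left (by linarith)
    have e2 : max (3 * t - 2) 0 = 0 := max_eq_right (by linarith)
    have e3 : max 0 (min (3 * t - 1) 1) = 0 := by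
      rw [min_eq_left (by linarith), max_eq_left (by linarith)]
    have hp := (gs_a hx ht).1
    rw [e1] at hp
    rw [e1, e2, e3]
    simp only [zero_mul, add_zero, sub_self, ofReal_zero, mul_zero]
    rw [exp_lg hp]
  · have e1 : min (3 * t) 1 = 1 := min_eq_right (by linarith)
    have e2 : max (3 * t - 2) 0 = 0 := max_eq_right (by linarith)
    have e3 : max 0 (min (3 * t - 1) 1) = 3 * t - 1 := by
      rw [min_eq_left (by linarith), max_eq_right (by linarith)]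
    rw [e1, e2, e3]
    have e : x + 1 * (1 / 4 - x) = 1 / 4 := by ring
    simp only [zero_mul, add_zero, sub_self]
    rw [e, Complex.exp_add, exp_lg (by norm_num)]
    congr 1
    · push_cast; rfl
    · congr 1; ring
  · have e1 : min (3 * t) 1 = 1 := min_eq_right (by linarith)
    have e2 : max (3 * t - 2) 0 = 3 * t - 2 := max_eq_left (by linarith)
    have e3 : max 0 (min (3 * t - 1) 1) = 1 := by
      rw [min_eq_right (by linarith), max_eq_right (by linarith)]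
    have hp := (gs_b hy ht).1
    rw [e2] at hp
    rw [e1, e2, e3]
    have e : x + 1 * (1 / 4 - x) = 1 / 4 := by ring
    rw [e]
    simp only [add_sub_cancel, ofReal_one, mul_one]
    rw [Complex.exp_add, Complex.exp_int_mul_two_pi_mul_I, mul_one, exp_lg hp]

theorem gs_zero {x y : ℝ} (n : ℤ) : gs x y n 0 = lg x := by
  unfold gs
  have e1 : min (3 * (0 : ℝ)) 1 = 0 := by norm_num
  have e2 : max (3 * (0 : ℝ) - 2) 0 = 0 := by norm_num
  have e3 : max 0 (min (3 * (0 : ℝ) - 1) 1) = 0 := by norm_num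
  rw [e1, e2, e3]
  simp

theorem gs_one {x y : ℝ} (n : ℤ) : gs x y n 1 = lg y + n * (2 * Real.pi * Complex.I) := by
  unfold gs
  have e1 : min (3 * (1 : ℝ)) 1 = 1 := by norm_num
  have e2 : max (3 * (1 : ℝ) - 2) 0 = 1 := by norm_num
  have e3 : max 0 (min (3 * (1 : ℝ) - 1) 1) = 1 := by norm_num
  rw [e1, e2, e3]
  simp

theorem sr_sr (e : Bool) (x : ℝ) : sr e (sr e x) = x := by
  cases e <;> simp [sr]

/-- a path in the class of `n` turns around `0` or `1` -/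
theorem class_is (e : Bool) {u v : C01} (P : Path u v) (f : ℝ → ℂ) (n : ℤ)
    (hf : ∀ t : I, sg e (P t : ℂ) = f t) (h : ClassA f n) :
    ∃ x ∈ Ioo (0 : ℝ) 1, ∃ y ∈ Ioo (0 : ℝ) 1, (u : ℂ) = x ∧ (v : ℂ) = y ∧
      Is e (lg (sr e x)) (lg (sr e y) + n * (2 * Real.pi * Complex.I))
        (Path.Homotopic.Quotient.mk P) := by
  obtain ⟨x, hx, y, hy, hfx, hfy, H, hHc, hHm, hH, hHe⟩ := h
  have i0 : (0 : ℝ) ∈ Icc (0 : ℝ) 1 := ⟨le_rfl, zero_le_one⟩
  have i1 : (1 : ℝ) ∈ Icc (0 : ℝ) 1 := ⟨zero_le_one, le_rfl⟩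
  have hu : (u : ℂ) = (sr e x : ℝ) := by
    have := hf 0
    rw [P.source] at this
    rw [← sg_ofReal, ← hfx]
    have h2 : f ((0 : I) : ℝ) = f 0 := by simp
    rw [← h2, ← this, sg_sg]
  have hv : (v : ℂ) = (sr e y : ℝ) := by
    have := hf 1
    rw [P.target] at this
    rw [← sg_ofReal, ← hfy]
    have h2 : f ((1 : I) : ℝ) = f 1 := by simp
    rw [← h2, ← this, sg_sg]
  refine ⟨sr e x, sr_mem e hx, sr e y, sr_mem e hy, hu, hv, ?_⟩
  rw [sr_sr, sr_sr]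
  have hKc : Continuous fun p : I × I =>
      (⟨sg e (H ((p.1 : ℝ), (p.2 : ℝ))), sg_mem e (hHm p.1 p.1.2 p.2 p.2.2)⟩ : C01) := by
    refine Continuous.subtype_mk ((sg_cont e).comp ?_) _
    exact hHc.comp_continuous (by fun_prop) fun p => ⟨p.1.2, p.2.2⟩
  have hQ0 : sg e (H (((1 : I) : ℝ), ((0 : I) : ℝ))) = u := by
    have : H (((1 : I) : ℝ), ((0 : I) : ℝ)) = f 0 := (hHe _ (1 : I).2).1
    rw [this, hfx, hu, sg_ofReal]
  have hQ1 : sg e (H (((1 : I) : ℝ), ((1 : I) : ℝ))) = v := by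
    have : H (((1 : I) : ℝ), ((1 : I) : ℝ)) = f 1 := (hHe _ (1 : I).2).2
    rw [this, hfy, hv, sg_ofReal]
  let Q : Path u v := ⟨⟨fun t => ⟨sg e (H (((1 : I) : ℝ), (t : ℝ))), sg_mem e (hHm _ (1 : I).2 t t.2)⟩,
    hKc.comp (Continuous.prodMk continuous_const continuous_id)⟩, Subtype.ext hQ0, Subtype.ext hQ1⟩
  have hPQ : Path.Homotopic.Quotient.mk P = Path.Homotopic.Quotient.mk Q := by
    rw [Path.Homotopic.Quotient.eq]
    refine ⟨⟨⟨⟨_, hKc⟩, fun t => ?_, fun t => rfl⟩, fun s t ht => ?_⟩⟩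
    · apply Subtype.ext
      show sg e (H (((0 : I) : ℝ), (t : ℝ))) = (P t : ℂ)
      have : H (((0 : I) : ℝ), (t : ℝ)) = f t := (hH t t.2).1
      rw [this, ← hf, sg_sg]
    · apply Subtype.ext
      rcases ht with rfl | ht
      · show sg e (H ((s : ℝ), ((0 : I) : ℝ))) = (P 0 : ℂ)
        have : H ((s : ℝ), ((0 : I) : ℝ)) = f 0 := (hHe s s.2).1
        rw [this, hfx, P.source, hu, sg_ofReal]
      · rw [mem_singleton_iff] at ht
        subst ht
        show sg e (H ((s : ℝ), ((1 : I) : ℝ))) = (P 1 : ℂ)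
        have : H ((s : ℝ), ((1 : I) : ℝ)) = f 1 := (hHe s s.2).2
        rw [this, hfy, P.target, hv, sg_ofReal]
  rw [hPQ]
  refine ⟨Q, rfl, ⟨⟨_, gs_cont hx hy n⟩, gs_zero n, gs_one n⟩, fun t => gs_re hx hy n t.2,
    fun t => ?_⟩
  show sg e (exp (gs x y n t)) = sg e (H (((1 : I) : ℝ), (t : ℝ)))
  rw [gs_exp hx hy n t.2]
  have : H (((1 : I) : ℝ), (t : ℝ)) = stdA x y n t := (hH t t.2).2
  rw [this]

end

end Pool.Agent.HM.H54
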