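import Pool.Agent.Helper49_HM.LC
import Pool.Agent.Helper87_HM.Arc

/-!
# Levi-Civita coordinates: the energy relation and the vector field
-/

set_option autoImplicit false

namespace Pool.Agent.HM.H54

open Complex Set Topology
open Pool.Agent.HM.H87 (hasDeriv_nsq hasDeriv_ninv comps FF_re FF_im)

noncomputable section

/-- numerator of `hE` -/
def En (m : Fin 3 → ℝ) (X : JS) : ℝ :=
  -1 - k2 m / 2 * ‖X.2.2.2‖ ^ 2 + m 0 * m 2 / ‖vA m (X.1 ^ 2) X.2.1‖ +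
    m 1 * m 2 / ‖vB m (X.1 ^ 2) X.2.1‖

/-- the energy relation (times `k1`) -/
def Gk (m : Fin 3 → ℝ) (X : JS) : ℝ :=
  k1 m * (2 * ‖X.2.2.1‖ ^ 2 - (m 0 + m 1)) - En m X * ‖X.1‖ ^ 2

theorem k1_pos {m : Fin 3 → ℝ} (hm : ∀ i, 0 < m i) : 0 < k1 m := by
  have h0 := hm 0
  have h1 := hm 1
  unfold k1
  positivity

theorem Gk_deriv (m : Fin 3 → ℝ) (hm : ∀ i, 0 < m i) (x : ℝ → JS) (S : Set ℝ) (t : ℝ)
    (hf : LFree m (x t)) (h : HasDerivWithinAt x (LCV m (x t)) S t) :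
    HasDerivWithinAt (fun s => Gk m (x s)) 0 S t := by
  obtain ⟨c1, c2, c3, c4⟩ := comps h
  have cR : HasDerivWithinAt (fun s => (x s).1 ^ 2) (2 * (x t).1 * (LCV m (x t)).1) S t := by
    have := c1.pow 2
    refine this.congr_deriv ?_
    simp
  have cA : HasDerivWithinAt (fun s => vA m ((x s).1 ^ 2) (x s).2.1)
      ((LCV m (x t)).2.1 + (w1 m : ℂ) * (2 * (x t).1 * (LCV m (x t)).1)) S t :=
    c2.add (cR.const_mul _)
  have cB : HasDerivWithinAt (fun s => vB m ((x s).1 ^ 2) (x s).2.1)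
      ((LCV m (x t)).2.1 - (w0 m : ℂ) * (2 * (x t).1 * (LCV m (x t)).1)) S t :=
    c2.sub (cR.const_mul _)
  have e1 := hasDeriv_nsq c1
  have e3 := (((hasDeriv_nsq c3).const_mul 2).sub_const (m 0 + m 1)).const_mul (k1 m)
  have e4 := ((hasDeriv_nsq c4).const_mul (k2 m / 2)).const_sub (-1)
  have e5 := hasDeriv_ninv cA hf.2.1 (m 0 * m 2)
  have e6 := hasDeriv_ninv cB hf.2.2 (m 1 * m 2)
  have e7 := (e4.add e5).add e6
  have e7' := HasDerivWithinAt.congr_deriv (f := fun s => En m (x s)) e7 rfl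
  have e8 := e3.sub (e7'.mul e1)
  refine HasDerivWithinAt.congr_deriv (f := fun s => Gk m (x s)) e8 ?_
  have h0 := hm 0
  have h1 := hm 1
  have h2 := hm 2
  have a0 : 0 < m 0 + m 1 := by positivity
  have aM : 0 < mT m := by unfold mT; positivity
  have K2 : k1 m * m 2 = m 0 * m 2 * w1 m := by unfold k1 w1; field_simp
  have K3 : k1 m * m 2 = m 1 * m 2 * w0 m := by unfold k1 w0; field_simp
  have K4 : k2 m * (mT m / (m 0 + m 1)) = m 2 := by unfold k2 mT; field_simp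
  have K0 : k1 m * hE m (x t) = En m (x t) := by
    unfold hE En
    rw [mul_div_cancel₀ _ (k1_pos hm).ne']
  have zre : ((x t).1 ^ 2).re = (x t).1.re * (x t).1.re - (x t).1.im * (x t).1.im := by
    rw [pow_two, Complex.mul_re]
  have zim : ((x t).1 ^ 2).im = 2 * (x t).1.re * (x t).1.im := by
    rw [pow_two, Complex.mul_im]; ring
  have vAre : (vA m ((x t).1 ^ 2) (x t).2.1).re = (x t).2.1.re + w1 m * ((x t).1 ^ 2).re := by
    simp only [vA, Complex.add_re, Complex.re_ofReal_mul]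
  have vAim : (vA m ((x t).1 ^ 2) (x t).2.1).im = (x t).2.1.im + w1 m * ((x t).1 ^ 2).im := by
    simp only [vA, Complex.add_im, Complex.im_ofReal_mul]
  have vBre : (vB m ((x t).1 ^ 2) (x t).2.1).re = (x t).2.1.re - w0 m * ((x t).1 ^ 2).re := by
    simp only [vB, Complex.sub_re, Complex.re_ofReal_mul]
  have vBim : (vB m ((x t).1 ^ 2) (x t).2.1).im = (x t).2.1.im - w0 m * ((x t).1 ^ 2).im := by
    simp only [vB, Complex.sub_im, Complex.im_ofReal_mul]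
  have two_re : ∀ z : ℂ, (2 * z).re = 2 * z.re := fun z => by simp
  have two_im : ∀ z : ℂ, (2 * z).im = 2 * z.im := fun z => by simp
  simp only [LCV, fP, gP, Complex.add_re, Complex.add_im, Complex.sub_re, mul_assoc,
    Complex.sub_im, Complex.re_ofReal_mul, Complex.im_ofReal_mul, Complex.mul_re (x t).1,
    Complex.mul_im (x t).1, two_re, two_im, Complex.mul_re ((starRingEnd ℂ) (x t).1),
    Complex.mul_im ((starRingEnd ℂ) (x t).1), Complex.conj_re, Complex.conj_im,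
    Complex.neg_re, Complex.neg_im, neg_mul, FF_re, FF_im]
  set RA := ‖vA m ((x t).1 ^ 2) (x t).2.1‖ ^ 3 with hRA
  set RB := ‖vB m ((x t).1 ^ 2) (x t).2.1‖ ^ 3 with hRB
  generalize (vA m ((x t).1 ^ 2) (x t).2.1).re = va1
  generalize (vA m ((x t).1 ^ 2) (x t).2.1).im = va2
  generalize (vB m ((x t).1 ^ 2) (x t).2.1).re = vb1
  generalize (vB m ((x t).1 ^ 2) (x t).2.1).im = vb2
  generalize En m (x t) = E at *
  generalize hE m (x t) = H at *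
  generalize (x t).1.re = x1
  generalize (x t).1.im = y1
  generalize (x t).2.2.1.re = x3
  generalize (x t).2.2.1.im = y3
  generalize (x t).2.2.2.re = x4
  generalize (x t).2.2.2.im = y4
  generalize ‖(x t).1‖ ^ 2 = N
  have ia : ∀ a : ℝ, a / RA = a * RA⁻¹ := fun a => div_eq_mul_inv _ _
  have ib : ∀ a : ℝ, a / RB = a * RB⁻¹ := fun a => div_eq_mul_inv _ _
  simp only [ia, ib]
  generalize RA⁻¹ = A
  generalize RB⁻¹ = B
  generalize hq : mT m / (m 0 + m 1) = Q at *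
  linear_combination (2 * (x1 * x3 + y1 * y3)) * K0 +
    (-2 * N * A * ((x1 * x3 - y1 * y3) * va1 + (x1 * y3 + y1 * x3) * va2)) * K2 +
    (2 * N * B * ((x1 * x3 - y1 * y3) * vb1 + (x1 * y3 + y1 * x3) * vb2)) * K3 +
    (-N ^ 2 * (m 0 * A * (x4 * va1 + y4 * va2) + m 1 * B * (x4 * vb1 + y4 * vb2))) * K4

theorem nsq_cast (z : ℂ) : ((‖z‖ : ℂ)) ^ 2 = z * (starRingEnd ℂ) z := by
  rw [Complex.mul_conj, Complex.normSq_eq_norm_sq]
  push_cast
  rfl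

theorem third (m : Fin 3 → ℝ) (hm : ∀ i, 0 < m i) (X : JS) (hz : X.1 ≠ 0) (hG : Gk m X = 0) :
    (2 * (LCV m X).2.2.1 * (starRingEnd ℂ) X.1 - 2 * X.2.2.1 * (starRingEnd ℂ) X.2.2.1) /
      (starRingEnd ℂ) X.1 ^ 2 = ((‖X.1‖ : ℂ)) ^ 2 * (JVF m (toJ X)).2.2.1 := by
  have hk := k1_pos hm
  have hE1 : (2 : ℂ) * (X.2.2.1 * (starRingEnd ℂ) X.2.2.1) =
      ((m 0 + m 1 : ℝ) : ℂ) + (hE m X : ℂ) * (X.1 * (starRingEnd ℂ) X.1) := by
    rw [← nsq_cast, ← nsq_cast]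
    have : 2 * ‖X.2.2.1‖ ^ 2 = (m 0 + m 1) + hE m X * ‖X.1‖ ^ 2 := by
      have h1 : hE m X = En m X / k1 m := rfl
      rw [h1]
      unfold Gk at hG
      field_simp
      linarith
    exact_mod_cast this
  have hC : (starRingEnd ℂ) X.1 ≠ 0 := by
    simpa using hz
  have hFF : ((‖X.1‖ : ℂ)) ^ 2 * FF (X.1 ^ 2) = 1 / (starRingEnd ℂ) X.1 ^ 2 := by
    unfold FF
    have : ((‖X.1 ^ 2‖ : ℝ) : ℂ) = X.1 * (starRingEnd ℂ) X.1 := by
      rw [← nsq_cast, norm_pow]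
      push_cast
      rfl
    rw [this, nsq_cast]
    field_simp
  have h3 : (JVF m (toJ X)).2.2.1 = -((m 0 + m 1 : ℝ) : ℂ) * FF (X.1 ^ 2) + fP m (X.1 ^ 2) X.2.1 := rfl
  have h4 : (LCV m X).2.2.1 = ((hE m X / 2 : ℝ) : ℂ) * X.1 +
      ((‖X.1‖ ^ 2 / 2 : ℝ) : ℂ) * (starRingEnd ℂ) X.1 * fP m (X.1 ^ 2) X.2.1 := rfl
  rw [h3, mul_add, mul_left_comm, hFF, h4]
  have h5 : ((‖X.1‖ ^ 2 / 2 : ℝ) : ℂ) = X.1 * (starRingEnd ℂ) X.1 / 2 := by
    rw [← nsq_cast]; push_cast; ring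
  rw [h5, nsq_cast]
  push_cast at hE1 ⊢
  generalize fP m (X.1 ^ 2) X.2.1 = f
  generalize (starRingEnd ℂ) X.1 = C at *
  generalize (starRingEnd ℂ) X.2.2.1 = V at *
  field_simp
  linear_combination (-1 : ℂ) * hE1

theorem toJ_deriv (m : Fin 3 → ℝ) (hm : ∀ i, 0 < m i) (x : ℝ → JS) (S : Set ℝ) (t : ℝ)
    (hf : LFree m (x t)) (hG : Gk m (x t) = 0) (h : HasDerivWithinAt x (LCV m (x t)) S t) :
    HasDerivWithinAt (fun s => toJ (x s)) ((‖(x t).1‖ ^ 2 : ℝ) • JVF m (toJ (x t))) S t := by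
  obtain ⟨c1, c2, c3, c4⟩ := comps h
  have hC : (starRingEnd ℂ) (x t).1 ≠ 0 := by simpa using hf.1
  have cR : HasDerivWithinAt (fun s => (x s).1 ^ 2) (2 * (x t).1 * (LCV m (x t)).1) S t := by
    have := c1.pow 2
    refine this.congr_deriv ?_
    simp
  have cc : HasDerivWithinAt (fun s => (starRingEnd ℂ) (x s).1) ((starRingEnd ℂ) (LCV m (x t)).1) S t :=
    Complex.conjCLE.toContinuousLinearMap.hasFDerivAt.comp_hasDerivWithinAt t c1
  have cw := (c3.const_mul 2).div cc hC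
  have hj := cR.prodMk (c2.prodMk (cw.prodMk c4))
  refine HasDerivWithinAt.congr_deriv (f := fun s => toJ (x s)) hj ?_
  have hsm : ∀ w : ℂ, (‖(x t).1‖ ^ 2 : ℝ) • w = ((‖(x t).1‖ : ℂ)) ^ 2 * w := by
    intro w
    rw [Complex.real_smul]
    push_cast
    rfl
  refine Prod.ext ?_ (Prod.ext ?_ (Prod.ext ?_ ?_))
  · simp only [Prod.smul_fst]
    rw [hsm, nsq_cast]
    show 2 * (x t).1 * (x t).2.2.1 = (x t).1 * (starRingEnd ℂ) (x t).1 *
      (2 * (x t).2.2.1 / (starRingEnd ℂ) (x t).1)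
    field_simp
  · simp only [Prod.smul_fst, Prod.smul_snd]
    rw [hsm]
    show ((‖(x t).1‖ ^ 2 : ℝ) : ℂ) * (x t).2.2.2 = ((‖(x t).1‖ : ℂ)) ^ 2 * (x t).2.2.2
    push_cast
    rfl
  · simp only [Prod.smul_fst, Prod.smul_snd]
    rw [hsm, ← third m hm (x t) hf.1 hG]
    rfl
  · simp only [Prod.smul_snd]
    rw [hsm]
    show ((‖(x t).1‖ ^ 2 : ℝ) : ℂ) * gP m ((x t).1 ^ 2) (x t).2.1 = ((‖(x t).1‖ : ℂ)) ^ 2 *
      gP m ((x t).1 ^ 2) (x t).2.1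
    push_cast
    rfl

/-- the energy relation holds if the Jacobi state is in the level set -/
theorem Gk_zero (m : Fin 3 → ℝ) (hm : ∀ i, 0 < m i) (X : JS) (hz : X.1 ≠ 0) (h : JE m (toJ X) = -1) :
    Gk m X = 0 := by
  have h0 := hm 0
  have h1 := hm 1
  have hp : 0 < ‖X.1‖ := norm_pos_iff.2 hz
  have n1 : ‖(toJ X).1‖ = ‖X.1‖ ^ 2 := by
    show ‖X.1 ^ 2‖ = _
    rw [norm_pow]
  have n2 : ‖(toJ X).2.2.1‖ = 2 * ‖X.2.2.1‖ / ‖X.1‖ := by
    show ‖2 * X.2.2.1 / (starRingEnd ℂ) X.1‖ = _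
    rw [norm_div, norm_mul, RCLike.norm_conj]
    norm_num
  unfold JE at h
  rw [n1, n2] at h
  have e1 : (toJ X).2.2.2 = X.2.2.2 := rfl
  have e2 : vA m (toJ X).1 (toJ X).2.1 = vA m (X.1 ^ 2) X.2.1 := rfl
  have e3 : vB m (toJ X).1 (toJ X).2.1 = vB m (X.1 ^ 2) X.2.1 := rfl
  rw [e1, e2, e3] at h
  have K : k1 m * (m 0 + m 1) = m 0 * m 1 := by unfold k1; field_simp
  unfold Gk En
  have h5 : k1 m / 2 * (2 * ‖X.2.2.1‖ / ‖X.1‖) ^ 2 * ‖X.1‖ ^ 2 = 2 * k1 m * ‖X.2.2.1‖ ^ 2 := by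
    field_simp
  have h6 : m 0 * m 1 / ‖X.1‖ ^ 2 * ‖X.1‖ ^ 2 = m 0 * m 1 := by field_simp
  generalize m 0 * m 2 / ‖vA m (X.1 ^ 2) X.2.1‖ = a at *
  generalize m 1 * m 2 / ‖vB m (X.1 ^ 2) X.2.1‖ = b at *
  linear_combination (‖X.1‖ ^ 2) * h - h5 + h6 - K

end

end Pool.Agent.HM.H54
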