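import Pool.Agent.Helper54_HM.Free

/-!
# Standard classes of paths in `ℂ ∖ {0,1}`
-/

set_option autoImplicit false

namespace Pool.Agent.HM.H54

open Complex Set Topology unitInterval


noncomputable section

/-- the identity or `z ↦ 1 - z` -/
def sg (e : Bool) (z : ℂ) : ℂ := if e then z else 1 - z

theorem sg_cont (e : Bool) : Continuous (sg e) := by
  cases e
  · show Continuous fun z : ℂ => sg false z
    simp only [sg]
    exact continuous_const.sub continuous_id
  · show Continuous fun z : ℂ => sg true z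
    simp only [sg]
    exact continuous_id

theorem sg_sg (e : Bool) (z : ℂ) : sg e (sg e z) = z := by
  cases e <;> simp [sg]

theorem sg_mem (e : Bool) {z : ℂ} (h : z ∈ C01) : sg e z ∈ C01 := by
  cases e
  · refine ⟨?_, ?_⟩
    · simp only [sg]
      intro h0
      exact h.2 (by simpa using (sub_eq_zero.1 h0).symm)
    · simp only [sg]
      intro h0
      refine h.1 ?_
      simpa using h0
  · simpa [sg] using h

theorem mem_of {w : ℂ} (h0 : w ≠ 0) (h1 : w.re < 1) : w ∈ C01 :=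
  ⟨h0, fun h => by rw [h] at h1; simp at h1⟩

theorem exp_mem {w : ℂ} (h : w.re < 0) : exp w ∈ C01 := by
  refine ⟨exp_ne_zero w, fun h1 => ?_⟩
  have := Complex.norm_exp w
  rw [h1, norm_one] at this
  have h2 := Real.exp_lt_exp.2 h
  rw [Real.exp_zero] at h2
  linarith

/-- class of a path in the punctured unit disc around `0` or `1`, with given logarithms of the end
points -/
def Is (e : Bool) (w₀ w₁ : ℂ) {u v : C01} (c : Path.Homotopic.Quotient u v) : Prop :=
  ∃ Q : Path u v, Path.Homotopic.Quotient.mk Q = c ∧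
    ∃ g : Path w₀ w₁, (∀ t, (g t).re < 0) ∧ ∀ t, sg e (exp (g t)) = Q t

theorem Is.uniq {e : Bool} {w₀ w₁ : ℂ} {u v : C01} {c c' : Path.Homotopic.Quotient u v}
    (h : Is e w₀ w₁ c) (h' : Is e w₀ w₁ c') : c = c' := by
  obtain ⟨Q, rfl, g, hg, hgQ⟩ := h
  obtain ⟨Q', rfl, g', hg', hgQ'⟩ := h'
  rw [Path.Homotopic.Quotient.eq]
  have hmem : ∀ s t : I, sg e (exp ((1 - (s : ℝ) : ℂ) * g t + (s : ℝ) * g' t)) ∈ C01 := by
    intro s t
    refine sg_mem e (exp_mem ?_)
    have h1 : ((1 - (s : ℝ) : ℂ) * g t + (s : ℝ) * g' t).re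
        = (1 - (s : ℝ)) * (g t).re + (s : ℝ) * (g' t).re := by
      simp
    rw [h1]
    have hs0 := s.2.1
    have hs1 := s.2.2
    have ha := hg t
    have hb := hg' t
    rcases hs0.eq_or_lt with h0 | h0
    · rw [← h0]; linarith
    · nlinarith
  have hc : Continuous fun p : I × I =>
      (⟨sg e (exp ((1 - (p.1 : ℝ) : ℂ) * g p.2 + (p.1 : ℝ) * g' p.2)), hmem p.1 p.2⟩ : C01) := by
    refine Continuous.subtype_mk ((sg_cont e).comp (continuous_exp.comp ?_)) _
    have h1 : Continuous fun p : I × I => g p.2 := g.continuous.comp continuous_snd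
    have h2 : Continuous fun p : I × I => g' p.2 := g'.continuous.comp continuous_snd
    fun_prop
  refine ⟨⟨⟨⟨_, hc⟩, fun t => ?_, fun t => ?_⟩, fun s t ht => ?_⟩⟩
  · apply Subtype.ext
    simp [hgQ t]
  · apply Subtype.ext
    simp [hgQ' t]
  · apply Subtype.ext
    rcases ht with rfl | ht
    · simp only [ContinuousMap.coe_mk]
      have : (1 - (s : ℝ) : ℂ) * g 0 + (s : ℝ) * g' 0 = g 0 := by
        rw [g.source, g'.source]; ring
      show sg e (exp ((1 - (s : ℝ) : ℂ) * g 0 + (s : ℝ) * g' 0)) = _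
      rw [this, hgQ 0]
      rfl
    · rw [mem_singleton_iff] at ht
      subst ht
      have : (1 - (s : ℝ) : ℂ) * g 1 + (s : ℝ) * g' 1 = g 1 := by
        rw [g.target, g'.target]; ring
      show sg e (exp ((1 - (s : ℝ) : ℂ) * g 1 + (s : ℝ) * g' 1)) = _
      rw [this, hgQ 1]
      rfl

theorem Is.trans {e : Bool} {w₀ w₁ w₂ : ℂ} {u v x : C01} {c : Path.Homotopic.Quotient u v}
    {c' : Path.Homotopic.Quotient v x} (h : Is e w₀ w₁ c) (h' : Is e w₁ w₂ c') :
    Is e w₀ w₂ (c.trans c') := by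
  obtain ⟨Q, rfl, g, hg, hgQ⟩ := h
  obtain ⟨Q', rfl, g', hg', hgQ'⟩ := h'
  refine ⟨Q.trans Q', rfl, g.trans g', fun t => ?_, fun t => ?_⟩
  · rw [Path.trans_apply]
    split_ifs
    · exact hg _
    · exact hg' _
  · rw [Path.trans_apply, Path.trans_apply]
    split_ifs
    · exact hgQ _
    · exact hgQ' _

theorem Is.symm {e : Bool} {w₀ w₁ : ℂ} {u v : C01} {c : Path.Homotopic.Quotient u v}
    (h : Is e w₀ w₁ c) : Is e w₁ w₀ c.symm := by
  obtain ⟨Q, rfl, g, hg, hgQ⟩ := h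
  refine ⟨Q.symm, rfl, g.symm, fun t => hg _, fun t => hgQ _⟩

theorem Is.shift {e : Bool} {w₀ w₁ : ℂ} {u v : C01} {c : Path.Homotopic.Quotient u v}
    (h : Is e w₀ w₁ c) (n : ℤ) :
    Is e (w₀ + n * (2 * Real.pi * Complex.I)) (w₁ + n * (2 * Real.pi * Complex.I)) c := by
  obtain ⟨Q, rfl, g, hg, hgQ⟩ := h
  refine ⟨Q, rfl, ⟨⟨fun t => g t + n * (2 * Real.pi * Complex.I), by fun_prop⟩, by simp, by simp⟩,
    fun t => ?_, fun t => ?_⟩
  · have : (g t + (n : ℂ) * (2 * Real.pi * Complex.I)).re = (g t).re := by simp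
    show (g t + (n : ℂ) * (2 * Real.pi * Complex.I)).re < 0
    rw [this]; exact hg t
  · show sg e (exp (g t + (n : ℂ) * (2 * Real.pi * Complex.I))) = _
    rw [Complex.exp_add, Complex.exp_int_mul_two_pi_mul_I, mul_one, hgQ]

theorem Is.exists {e : Bool} {w₀ w₁ : ℂ} (h0 : w₀.re < 0) (h1 : w₁.re < 0) {u v : C01}
    (hu : sg e (exp w₀) = u) (hv : sg e (exp w₁) = v) :
    ∃ c : Path.Homotopic.Quotient u v, Is e w₀ w₁ c := by
  have hre : ∀ t : unitInterval, ((1 - (t : ℝ) : ℂ) * w₀ + (t : ℝ) * w₁).re < 0 := by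
    intro t
    have h1 : ((1 - (t : ℝ) : ℂ) * w₀ + (t : ℝ) * w₁).re
        = (1 - (t : ℝ)) * w₀.re + (t : ℝ) * w₁.re := by
      simp
    rw [h1]
    have hs0 := t.2.1
    have hs1 := t.2.2
    rcases hs0.eq_or_lt with h0 | h0
    · rw [← h0]; linarith
    · nlinarith
  let g : Path w₀ w₁ := ⟨⟨fun t => (1 - (t : ℝ) : ℂ) * w₀ + (t : ℝ) * w₁, by fun_prop⟩,
    by simp, by simp⟩
  let Q : Path u v := ⟨⟨fun t => ⟨sg e (exp (g t)), sg_mem e (exp_mem (hre t))⟩,
    Continuous.subtype_mk ((sg_cont e).comp (continuous_exp.comp g.continuous)) _⟩,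
    Subtype.ext (by simp [hu]), Subtype.ext (by simp [hv])⟩
  exact ⟨Path.Homotopic.Quotient.mk Q, Q, rfl, g, hre, fun t => rfl⟩

theorem Is.refl {e : Bool} {w : ℂ} (h0 : w.re < 0) {u : C01} (hu : sg e (exp w) = u) :
    Is e w w (Path.Homotopic.Quotient.refl u) :=
  ⟨Path.refl u, rfl, Path.refl w, fun _ => h0, fun _ => hu⟩

end

end Pool.Agent.HM.H54
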